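import Pool.Agent.Run7.h323.BT.Kum

/-!
The finite layers of a multiquadratic tower are generated by square roots.
-/

set_option autoImplicit false
set_option linter.unusedSectionVars false

namespace Run7.h323.BT

open NumberField IsDedekindDomain WithZero IntermediateField

variable {K : Type} [Field K] [NumberField K] {G : Type} [CommGroup G] {D : G → 𝓞 K}

lemma KD.g_sq (h : KD D) (g : G) : g * g = 1 := by
  by_contra hne
  apply h.ns _ hne
  obtain ⟨k, hk, h1⟩ := h.mul g g
  have hk0 : (k : K) ≠ 0 := fun h2 => hk (RingOfIntegers.ext h2)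
  refine ⟨(D g : K) / k, ?_⟩
  have h2 := congrArg (algebraMap (𝓞 K) K) h1
  simp only [map_mul, map_pow] at h2
  have h3 : (D (g * g) : K) * (k : K) ^ 2 = (D g : K) * (D g : K) := h2
  rw [div_mul_div_comm, eq_div_iff (mul_ne_zero hk0 hk0), ← h3]
  ring

lemma KD.g_inv (h : KD D) (g : G) : g⁻¹ = g := inv_eq_of_mul_eq_one_right (h.g_sq g)

lemma KD.one_sq (h : KD D) : ∃ k : 𝓞 K, k ≠ 0 ∧ D 1 = k ^ 2 := by
  obtain ⟨k, hk, h2⟩ := h.mul 1 1
  rw [mul_one] at h2
  exact ⟨k, hk, mul_left_cancel₀ (h.ne 1) h2.symm⟩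

/-- the elements whose square roots are in `F` -/
def KD.sub (h : KD D) (F : IntermediateField K (AlgebraicClosure K)) : Subgroup G where
  carrier := {g | ∃ z ∈ F, z ^ 2 = algebraMap K (AlgebraicClosure K) (D g : K)}
  mul_mem' := by
    rintro g g' ⟨z, hz, h1⟩ ⟨z', hz', h2⟩
    obtain ⟨k, hk, h3⟩ := h.mul g g'
    have hk0 : (k : K) ≠ 0 := fun h2 => hk (RingOfIntegers.ext h2)
    have hk1 : algebraMap K (AlgebraicClosure K) (k : K) ≠ 0 := (_root_.map_ne_zero _).2 hk0
    refine ⟨z * z' * (algebraMap K (AlgebraicClosure K) (k : K))⁻¹,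
      F.mul_mem (F.mul_mem hz hz') (F.inv_mem (F.algebraMap_mem _)), ?_⟩
    have h4 := congrArg (fun x : 𝓞 K => algebraMap K (AlgebraicClosure K) (x : K)) h3
    simp only [map_mul, map_pow] at h4
    have h5 : algebraMap K (AlgebraicClosure K) (D (g * g') : K) *
        algebraMap K (AlgebraicClosure K) (k : K) ^ 2 =
        algebraMap K (AlgebraicClosure K) (D g : K) * algebraMap K (AlgebraicClosure K) (D g' : K) := h4
    rw [mul_pow, mul_pow, h1, h2, inv_pow, ← h5]
    field_simp
  one_mem' := by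
    obtain ⟨k, hk, h1⟩ := h.one_sq
    refine ⟨algebraMap K (AlgebraicClosure K) (k : K), F.algebraMap_mem _, ?_⟩
    rw [h1, ← map_pow]
    rfl
  inv_mem' := by
    intro g hg
    rw [h.g_inv]
    exact hg

/-- sign characters separate the elements of the groups of exponent two -/
lemma sign_sep {Γ : Type} [Group Γ] [Finite Γ] (h2 : ∀ s : Γ, s * s = 1) {t : Γ} (ht : t ≠ 1) :
    ∃ φ : Γ →* ℤˣ, φ t ≠ 1 := by
  let I : CommGroup Γ := { (inferInstance : Group Γ) with
    mul_comm := fun s t => by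
      calc s * t = (t * t) * (s * t) * (s * s) := by rw [h2, h2, one_mul, mul_one]
        _ = t * ((t * s) * (t * s)) * s := by simp only [mul_assoc]
        _ = t * s := by rw [h2, mul_one] }
  have h1 : Monoid.exponent Γ ∣ 2 := Monoid.exponent_dvd_of_forall_pow_eq_one fun g => by
    rw [pow_two]; exact h2 g
  have h3 : Monoid.exponent Γ = 2 := by
    rcases (Nat.dvd_prime Nat.prime_two).1 h1 with h4 | h4
    · exfalso
      apply ht
      have h5 := Monoid.pow_exponent_eq_one t
      rwa [h4, pow_one] at h5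
    · exact h4
  have h4 : HasEnoughRootsOfUnity ℤ (Monoid.exponent Γ) := by
    rw [h3]
    exact ⟨⟨-1, IsPrimitiveRoot.neg_one 0 (by norm_num)⟩, inferInstance⟩
  exact CommGroup.exists_apply_ne_one_of_hasEnoughRootsOfUnity Γ ℤ ht

section layer

variable (F : IntermediateField K (AlgebraicClosure K)) [FiniteDimensional K F]

lemma layer_abelian (hF : F ≤ twr D) : IsAbelianGalois K F :=
  IsAbelianGalois.of_algHom (IntermediateField.inclusion hF)

lemma layer_sq (hF : F ≤ twr D) (s : F ≃ₐ[K] F) : s * s = 1 := by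
  let _ : Algebra F (twr D) := (IntermediateField.inclusion hF).toAlgebra
  have htow : IsScalarTower K F (twr D) := IsScalarTower.of_algebraMap_eq fun x => rfl
  have hab := layer_abelian F hF
  have hn : Normal K F := inferInstance
  obtain ⟨s', rfl⟩ := AlgEquiv.restrictNormalHom_surjective (F := K) (K₁ := F) (twr D) s
  rw [← map_mul, twr_sq, map_one]

/-- the root of `D g` -/
lemma KD.exists_root (h : KD D) [NumberField F] (g : h.sub F) : ∃ r : 𝓞 F,
    r ^ 2 = algebraMap (𝓞 K) (𝓞 F) (D g.1) := by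
  obtain ⟨z, hz, h1⟩ := g.2
  have h2 : (⟨z, hz⟩ : F) ^ 2 = algebraMap K F (D g.1 : K) := Subtype.ext h1
  have h3 : IsIntegral ℤ (⟨z, hz⟩ : F) := by
    refine IsIntegral.of_pow two_pos ?_
    rw [h2]
    exact (algebraMap (𝓞 K) (𝓞 F) (D g.1)).2
  exact ⟨⟨_, h3⟩, RingOfIntegers.ext h2⟩

/-- **the layers** -/
theorem KD.layer (h : KD D) [NumberField F] (hF : F ≤ twr D) :
    ∃ r : h.sub F → 𝓞 F, MQ (K := K) (fun g : h.sub F => D g.1) r := by
  classical
  choose r hr using h.exists_root F
  refine ⟨r, hr, fun g g' => h.mul g.1 g'.1, fun g => h.ne g.1, ?_, fun g hg => ?_,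
    fun g v hv => h.val g.1 v hv⟩
  · intro t ht
    by_contra hne
    have hab := layer_abelian F hF
    have hΓ : Finite (F ≃ₐ[K] F) := inferInstance
    obtain ⟨φ, hφ⟩ := sign_sep (layer_sq F hF) hne
    -- Hilbert 90
    have hsm : ∀ (s : F ≃ₐ[K] F) (x : Fˣ), ((s • x : Fˣ) : F) = s (x : F) := fun s x => rfl
    obtain ⟨β, hβ⟩ := groupCohomology.isMulCoboundary₁_of_isMulCocycle₁_of_aut_to_units
      (K := K) (L := F) (fun s => Units.map (Int.castRingHom F : ℤ →* F) (φ s)) (by
        intro s s'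
        apply Units.ext
        rw [Units.val_mul, hsm]
        simp only [Units.coe_map, map_mul, MonoidHom.coe_coe, Int.coe_castRingHom, Units.val_mul]
        rw [map_intCast]
        push_cast
        ring)
    have hβ' : ∀ s : F ≃ₐ[K] F, s (β : F) = ((φ s : ℤ) : F) * (β : F) := by
      intro s
      have h1 := congrArg (fun x : Fˣ => (x : F)) (hβ s)
      simp only [Units.val_div_eq_div_val, Units.coe_map, MonoidHom.coe_coe, Int.coe_castRingHom]
        at h1
      rw [hsm, div_eq_iff β.ne_zero] at h1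
      exact h1
    -- the square is in `K`
    have hg : IsGalois K F := inferInstance
    obtain ⟨w, hw⟩ := (IsGalois.mem_range_algebraMap_iff_fixed (F := K) ((β : F) ^ 2)).2 (by
      intro s
      rw [map_pow, hβ' s, mul_pow]
      have h1 : ((φ s : ℤ) : F) ^ 2 = 1 := by
        have h2 : ((φ s : ℤ)) ^ 2 = 1 := by
          rw [pow_two, ← Units.val_mul, Int.units_mul_self]
          rfl
        exact_mod_cast h2
      rw [h1, one_mul])
    have hw0 : w ≠ 0 := by
      rintro rfl
      rw [map_zero] at hw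
      exact pow_ne_zero 2 β.ne_zero hw.symm
    have hβF : ((β : F) : AlgebraicClosure K) ∈ twr D := hF (β : F).2
    obtain ⟨g, k, hk, h1⟩ := h.kum' hβF hw0 (by
      have h2 := congrArg (fun x : F => (x : AlgebraicClosure K)) hw
      exact h2.symm)
    -- the root
    have hkF : algebraMap K F k ≠ 0 := (_root_.map_ne_zero _).2 hk
    have h3 : ((β : F) * (algebraMap K F k)⁻¹) ^ 2 = algebraMap K F (D g : K) := by
      rw [mul_pow, ← hw, h1, map_mul, map_pow, inv_pow]
      field_simp
    have hgF : g ∈ h.sub F := by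
      refine ⟨(((β : F) * (algebraMap K F k)⁻¹ : F) : AlgebraicClosure K), Subtype.mem _, ?_⟩
      have h4 := congrArg (fun x : F => (x : AlgebraicClosure K)) h3
      exact h4
    have h4 := ht ⟨g, hgF⟩
    have h5 : (r ⟨g, hgF⟩ : F) ^ 2 = algebraMap K F (D g : K) := by
      have h6 := congrArg (algebraMap (𝓞 F) F) (hr ⟨g, hgF⟩)
      rw [map_pow] at h6
      exact h6
    have h6 : t ((β : F) * (algebraMap K F k)⁻¹) = (β : F) * (algebraMap K F k)⁻¹ := by
      have h7 : ((β : F) * (algebraMap K F k)⁻¹) ^ 2 = (r ⟨g, hgF⟩ : F) ^ 2 := by rw [h3, h5]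
      rcases sq_eq_sq_iff_eq_or_eq_neg.1 h7 with h8 | h8
      · rw [h8, h4]
      · rw [h8, map_neg, h4]
    rw [map_mul, map_inv₀, t.commutes, hβ' t] at h6
    have h7 : ((φ t : ℤ) : F) = 1 := by
      have h8 : (β : F) * (algebraMap K F k)⁻¹ ≠ 0 := mul_ne_zero β.ne_zero (inv_ne_zero hkF)
      apply mul_right_cancel₀ h8
      rw [one_mul, ← mul_assoc]
      exact h6
    apply hφ
    have h9 : (φ t : ℤ) = 1 := Int.cast_injective (α := F) (by rw [h7]; simp)
    exact Units.ext h9
  · refine h.ns g.1 fun h1 => hg (Subtype.ext h1)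

/-- the groups of the layers are finite -/
lemma MQ.fin {F : Type} [Field F] [NumberField F] [Algebra K F] [IsGalois K F] {𝒢 : Type}
    [CommGroup 𝒢] {D : 𝒢 → 𝓞 K} {r : 𝒢 → 𝓞 F} (h : MQ D r) : Finite 𝒢 := by
  let j : 𝒢 → ((F ≃ₐ[K] F) → ℤˣ) := fun g t => MQ.ep r t g
  refine Finite.of_injective j ?_
  intro g g' hg
  have h1 : ∀ t : F ≃ₐ[K] F, MQ.ep r t g = MQ.ep r t g' := fun t => congrFun hg t
  have h2 : g * g' = 1 := by
    apply h.right_nd
    intro t
    rw [h.ep_mul_right, h1, Int.units_mul_self]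
  have h3 : g' * g' = 1 := by
    apply h.right_nd
    intro t
    rw [h.ep_mul_right, Int.units_mul_self]
  exact mul_right_cancel (h2.trans h3.symm)

end layer

end Run7.h323.BT
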