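import Pool.Agent.Run7.h323.BT.Ser
import Pool.Agent.Run7.h323.BT.Kum2
import Pool.Agent.K4H15.BW.Gal
import Pool.Agent.K4H55.CX.Up

/-!
The towers, with their groups.
-/

set_option autoImplicit false
set_option linter.unusedSectionVars false

namespace Run7.h323.BT

open NumberField IsDedekindDomain WithZero Filter Topology
open Pool.Agent.K4H55.BI (IQ BF NVT sym chiT gen gen_span gen_dvd gen_prime gen_na gen_inj efac)
open Pool.Agent.K4H55.BD (tau mul_tau QE tau_tau coe_tau)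
open Pool.Agent.K4H15.BW
open scoped symmDiff

variable {K : Type} [Field K] [NumberField K] {σ : K →+* ℂ} {δ : K}

/-- the towers with the group, the characters and the reciprocity law -/
theorem main2 (h : IQ K σ δ) [hP : IsPrincipalIdealRing (𝓞 K)] {a b n : 𝓞 K}
    {c : Ideal (𝓞 K) → ℂ} (hΔ : 4 * a ^ 3 + 27 * b ^ 2 ≠ 0) (hf : BF σ δ n c)
    (hc : ∀ v : HeightOneSpectrum (𝓞 K), 2 * (4 * a ^ 3 + 27 * b ^ 2) ∉ v.asIdeal →
      n ∉ v.asIdeal ∧ c v.asIdeal = (Ideal.absNorm v.asIdeal : ℂ) - pt a b v)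
    (h0 : NVT n c ∅) {M : ℕ} (hM : M ≠ 0) {Q : Set ℕ} (hQ : Q ⊆ QE h a b n) (hQi : Q.Infinite) :
    ∃ (G : Type) (_ : CommGroup G) (D : G → 𝓞 K) (T : G → Finset (HeightOneSpectrum (𝓞 K))),
      KD D ∧ (∀ g, ∃ g', tau h (D g) = D g') ∧
      (∀ g, Squarefree (D g) ∧ (M : 𝓞 K) ∣ D g - 1 ∧
        (∀ v : HeightOneSpectrum (𝓞 K), 2 * (4 * a ^ 3 + 27 * b ^ 2) * M ∈ v.asIdeal →
          IsSquare (algebraMap K (v.adicCompletion K) (D g : K))) ∧
        (∀ v : HeightOneSpectrum (𝓞 K), D g ∈ v.asIdeal →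
          (2 * (4 * a ^ 3 + 27 * b ^ 2) ∉ v.asIdeal ∧ ∀ x : 𝓞 K, x ^ 3 + a * x + b ∉ v.asIdeal) ∧
          ∃ q ∈ Q, (q : 𝓞 K) ∈ v.asIdeal) ∧
        (∀ v : HeightOneSpectrum (𝓞 K), v ∈ T g ↔ D g ∈ v.asIdeal) ∧
        (∀ v : HeightOneSpectrum (𝓞 K), 2 * (4 * a ^ 3 + 27 * b ^ 2) ∈ v.asIdeal →
          chiT (T g) (gen v) = 1) ∧
        (∀ v : HeightOneSpectrum (𝓞 K), (2 : 𝓞 K) ∉ v.asIdeal → v ∉ T g →
          sym v (D g) = chiT (T g) (gen v)) ∧
        (∀ u, IsUnit u → chiT (T g) u = 1) ∧ NVT n c (T g)) ∧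
      ∃ y : ℕ → G, ∀ S S' : Finset ℕ, S.Nonempty ∨ S'.Nonempty →
        ¬ IsSquare ((∏ j ∈ S, (D (y j) : K)) * ∏ j ∈ S', (tau h (D (y j)) : K)) := by
  classical
  obtain ⟨lam, hlam, hmem2, hint⟩ := Pool.Agent.Y18.LP.exists_lam Nat.prime_two
  have hmem : (2 : integralClosure ℤ ℂ) ∈ lam := by exact_mod_cast hmem2
  set x0 : 𝓞 K := 4 * a ^ 3 + 27 * b ^ 2 with hx0
  have hnorm : (Algebra.norm ℤ x0).natAbs ≠ 0 := by
    rw [Ne, Int.natAbs_eq_zero]
    exact Algebra.norm_ne_zero_iff.2 hΔ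
  set N0 : ℕ := 8 * (M * (Algebra.norm ℤ x0).natAbs) with hN0
  have hN00 : N0 ≠ 0 := mul_ne_zero (by norm_num) (mul_ne_zero hM hnorm)
  have h8 : 8 ∣ N0 := ⟨_, rfl⟩
  have hMN : (M : 𝓞 K) ∣ (N0 : 𝓞 K) := ⟨8 * ((Algebra.norm ℤ x0).natAbs : 𝓞 K), by
    rw [hN0]; push_cast; ring⟩
  have hN' : ∀ v : HeightOneSpectrum (𝓞 K), 2 * x0 * M ∈ v.asIdeal → (N0 : 𝓞 K) ∈ v.asIdeal := by
    intro v hv
    rcases v.isPrime.mem_or_mem hv with h1 | h1
    · rcases v.isPrime.mem_or_mem h1 with h2 | h2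
      · have e : (N0 : 𝓞 K) = 2 * (4 * (M * ((Algebra.norm ℤ x0).natAbs : 𝓞 K))) := by
          rw [hN0]; push_cast; ring
        rw [e]
        exact v.asIdeal.mul_mem_right _ h2
      · have h3 : ((Algebra.norm ℤ x0 : ℤ) : 𝓞 K) ∈ v.asIdeal := by
          rw [← mul_tau h]
          exact v.asIdeal.mul_mem_right _ h2
        have h4 : (((Algebra.norm ℤ x0).natAbs : ℕ) : 𝓞 K) ∈ v.asIdeal := by
          rcases Int.natAbs_eq (Algebra.norm ℤ x0) with h5 | h5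
          · rw [h5, Int.cast_natCast] at h3
            exact h3
          · rw [h5, Int.cast_neg, Int.cast_natCast, neg_mem_iff] at h3
            exact h3
        have e : (N0 : 𝓞 K) = (((Algebra.norm ℤ x0).natAbs : ℕ) : 𝓞 K) * (8 * M) := by
          rw [hN0]; push_cast; ring
        rw [e]
        exact v.asIdeal.mul_mem_right _ h4
    · obtain ⟨w, hw⟩ := hMN
      rw [hw]
      exact v.asIdeal.mul_mem_right _ h1
  have hN : ∀ v : HeightOneSpectrum (𝓞 K), 2 * (4 * a ^ 3 + 27 * b ^ 2) ∈ v.asIdeal →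
      (N0 : 𝓞 K) ∈ v.asIdeal := fun v hv => hN' v (v.asIdeal.mul_mem_right _ hv)
  obtain ⟨B, β, hb⟩ := exists_blocks h hQ hQi hN00 h8
  obtain ⟨G, y, i, h1, h2, h3, h4, h5⟩ := towers h hf h0 lam hlam hmem sw sw_sw sw_ne hb.disj
    (hb.adm' hc fun m hm => by exact_mod_cast hint m hm) hb.unit
  refine ⟨G, inferInstance, fun x => DX β (su x.1), fun x => TX B (su x.1), ?_, ?_, ?_,
    fun j => ⟨y j, h3 j⟩, hb.indep h4 h5⟩
  · refine ⟨fun x x' => ⟨DX β (su x.1 ∩ su x'.1), hb.ne_zero _, ?_⟩, fun x => hb.ne_zero _, ?_,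
      fun x v hv => (hb.val hv).1⟩
    · show DX β (su (x.1 * x'.1)) * _ = _
      rw [su_mul]
      exact DX_mul _ _
    · intro x hx
      have hne : (su x.1).Nonempty := by
        rw [Finset.nonempty_iff_ne_empty]
        intro h6
        apply hx
        apply Subtype.ext
        apply Subtype.ext
        funext j
        by_contra h7
        have h8 : j ∈ su x.1 := mem_su.2 h7
        rw [h6] at h8
        exact absurd h8 (Finset.notMem_empty j)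
      obtain ⟨j, hj⟩ := hne
      obtain ⟨v, hv⟩ := hb.ne j
      exact not_sq_exp (hb.val (hb.mem.2 (mem_TX.2 ⟨j, hj, hv⟩))).1
  · intro x
    exact ⟨⟨tw sw x.1, h1 x.1 x.2⟩, hb.tau_DX x.1⟩
  · intro x
    refine ⟨hb.sqf _, dvd_trans hMN (hb.mod' _), fun v hv => hb.isSq h8 (hN' v hv),
      fun v hv => ?_, fun v => hb.mem.symm, fun v hv => hb.bad (hN v hv),
      fun v hv2 hvT => hb.recip hv2 hvT, fun u hu => ?_, h2 x.1 x.2⟩
    · obtain ⟨i, _, hi⟩ := mem_TX.1 (hb.mem.1 hv)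
      obtain ⟨q, hq, hqv⟩ := hb.adm i v hi
      have h9 := (hb.sub hq).2 v hqv
      exact ⟨⟨h9.1, h9.2.2⟩, q, hq, hqv⟩
    · show chiT (TX B (su x.1)) u = 1
      rw [TX_chi hb.disj]
      exact Finset.prod_eq_one fun i _ => hb.unit i u hu

end Run7.h323.BT
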