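import Pool.Agent.Run7.h323.BT.MQ

/-!
Multiquadratic extensions of number fields: the decomposition law at the odd places.
-/

set_option autoImplicit false
set_option linter.unusedSectionVars false

namespace Run7.h323.BT

open NumberField IsDedekindDomain WithZero

variable {K F : Type} [Field K] [NumberField K] [Field F] [NumberField F] [Algebra K F]
  {𝒢 : Type} [CommGroup 𝒢] {D : 𝒢 → 𝓞 K} {r : 𝒢 → 𝓞 F}

lemma nv_two (v : HeightOneSpectrum (𝓞 K)) : 2 ≤ Ideal.absNorm v.asIdeal := by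
  have h5 : Ideal.absNorm v.asIdeal ≠ 0 := by
    rw [Ne, Ideal.absNorm_eq_zero_iff]
    exact v.ne_bot
  have h6 : Ideal.absNorm v.asIdeal ≠ 1 := by
    rw [Ne, Ideal.absNorm_eq_one_iff]
    exact v.isPrime.ne_top
  omega

lemma nv_card (v : HeightOneSpectrum (𝓞 K)) : Ideal.absNorm v.asIdeal = Nat.card (𝓞 K ⧸ v.asIdeal) := by
  rw [Ideal.absNorm_apply, Submodule.cardQuot_apply]

/-- Euler's criterion -/
lemma euler_one {v : HeightOneSpectrum (𝓞 K)} {x y : 𝓞 K} (hx : x ∉ v.asIdeal)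
    (h : x - y ^ 2 ∈ v.asIdeal) (h2 : (2 : 𝓞 K) ∉ v.asIdeal) :
    x ^ (Ideal.absNorm v.asIdeal / 2) - 1 ∈ v.asIdeal ∧ Ideal.absNorm v.asIdeal % 2 = 1 := by
  classical
  have hmax : v.asIdeal.IsMaximal := v.isMaximal
  let _ : Field (𝓞 K ⧸ v.asIdeal) := Ideal.Quotient.field v.asIdeal
  have : Fintype (𝓞 K ⧸ v.asIdeal) := Fintype.ofFinite _
  have hch : ringChar (𝓞 K ⧸ v.asIdeal) ≠ 2 := by
    intro h3
    apply h2
    rw [← Ideal.Quotient.eq_zero_iff_mem, map_ofNat]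
    have h4 := (ringChar.spec (𝓞 K ⧸ v.asIdeal) 2).2 (by rw [h3])
    exact_mod_cast h4
  set π := Ideal.Quotient.mk v.asIdeal
  have hx0 : π x ≠ 0 := fun h3 => hx (Ideal.Quotient.eq_zero_iff_mem.1 h3)
  have hsq : IsSquare (π x) := by
    refine ⟨π y, ?_⟩
    rw [← Ideal.Quotient.eq_zero_iff_mem, map_sub, map_pow, sub_eq_zero] at h
    rw [h, sq]
  have h3 := (FiniteField.isSquare_iff hch hx0).1 hsq
  have hc : Ideal.absNorm v.asIdeal = Fintype.card (𝓞 K ⧸ v.asIdeal) := by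
    rw [nv_card, Nat.card_eq_fintype_card]
  refine ⟨?_, ?_⟩
  · rw [← Ideal.Quotient.eq_zero_iff_mem, map_sub, map_pow, map_one, hc, sub_eq_zero]
    exact h3
  · rw [hc]
    exact FiniteField.odd_card_of_char_ne_two hch

lemma euler_neg {v : HeightOneSpectrum (𝓞 K)} {x : 𝓞 K} (hx : x ∉ v.asIdeal)
    (h : ¬ ∃ y, x - y ^ 2 ∈ v.asIdeal) (h2 : (2 : 𝓞 K) ∉ v.asIdeal) :
    x ^ (Ideal.absNorm v.asIdeal / 2) + 1 ∈ v.asIdeal ∧ Ideal.absNorm v.asIdeal % 2 = 1 := by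
  classical
  have hmax : v.asIdeal.IsMaximal := v.isMaximal
  let _ : Field (𝓞 K ⧸ v.asIdeal) := Ideal.Quotient.field v.asIdeal
  have : Fintype (𝓞 K ⧸ v.asIdeal) := Fintype.ofFinite _
  have hch : ringChar (𝓞 K ⧸ v.asIdeal) ≠ 2 := by
    intro h3
    apply h2
    rw [← Ideal.Quotient.eq_zero_iff_mem, map_ofNat]
    have h4 := (ringChar.spec (𝓞 K ⧸ v.asIdeal) 2).2 (by rw [h3])
    exact_mod_cast h4
  set π := Ideal.Quotient.mk v.asIdeal
  have hx0 : π x ≠ 0 := fun h3 => hx (Ideal.Quotient.eq_zero_iff_mem.1 h3)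
  have hsq : ¬ IsSquare (π x) := by
    rintro ⟨z, hz⟩
    obtain ⟨y, rfl⟩ := Ideal.Quotient.mk_surjective z
    apply h
    refine ⟨y, ?_⟩
    rw [← Ideal.Quotient.eq_zero_iff_mem, map_sub, map_pow, sub_eq_zero, sq]
    exact hz
  have h3 := (FiniteField.pow_dichotomy hch hx0).resolve_left
    fun h4 => hsq ((FiniteField.isSquare_iff hch hx0).2 h4)
  have hc : Ideal.absNorm v.asIdeal = Fintype.card (𝓞 K ⧸ v.asIdeal) := by
    rw [nv_card, Nat.card_eq_fintype_card]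
  refine ⟨?_, ?_⟩
  · rw [← Ideal.Quotient.eq_zero_iff_mem, map_add, map_pow, map_one, hc, h3]
    ring
  · rw [hc]
    exact FiniteField.odd_card_of_char_ne_two hch

/-- if all residues are fixed by the power `N` -/
lemma card_le_of_pow {v : HeightOneSpectrum (𝓞 F)} {N : ℕ} (hN : 1 < N)
    (h : ∀ x : 𝓞 F, x ^ N - x ∈ v.asIdeal) : Ideal.absNorm v.asIdeal ≤ N := by
  classical
  have hmax : v.asIdeal.IsMaximal := v.isMaximal
  let _ : Field (𝓞 F ⧸ v.asIdeal) := Ideal.Quotient.field v.asIdeal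
  have : Fintype (𝓞 F ⧸ v.asIdeal) := Fintype.ofFinite _
  rw [nv_card, Nat.card_eq_fintype_card]
  set p : Polynomial (𝓞 F ⧸ v.asIdeal) := Polynomial.X ^ N - Polynomial.X with hp
  have hdeg : p.natDegree = N := FiniteField.X_pow_card_sub_X_natDegree_eq _ hN
  have hp0 : p ≠ 0 := by
    intro h0
    rw [h0, Polynomial.natDegree_zero] at hdeg
    omega
  have h1 : (Finset.univ : Finset (𝓞 F ⧸ v.asIdeal)) ⊆ p.roots.toFinset := by
    intro z _
    rw [Multiset.mem_toFinset, Polynomial.mem_roots hp0, Polynomial.IsRoot.def]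
    obtain ⟨x, rfl⟩ := Ideal.Quotient.mk_surjective z
    rw [hp]
    simp only [Polynomial.eval_sub, Polynomial.eval_pow, Polynomial.eval_X]
    rw [← map_pow, ← map_sub]
    exact Ideal.Quotient.eq_zero_iff_mem.2 (h x)
  calc Fintype.card (𝓞 F ⧸ v.asIdeal) = (Finset.univ : Finset (𝓞 F ⧸ v.asIdeal)).card := rfl
    _ ≤ p.roots.toFinset.card := Finset.card_le_card h1
    _ ≤ Multiset.card p.roots := Multiset.toFinset_card_le _
    _ ≤ p.natDegree := p.card_roots'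
    _ = N := hdeg

lemma pow_of_norm {v : HeightOneSpectrum (𝓞 F)} (x : 𝓞 F) :
    x ^ Ideal.absNorm v.asIdeal - x ∈ v.asIdeal := by
  classical
  have hmax : v.asIdeal.IsMaximal := v.isMaximal
  let _ : Field (𝓞 F ⧸ v.asIdeal) := Ideal.Quotient.field v.asIdeal
  have : Fintype (𝓞 F ⧸ v.asIdeal) := Fintype.ofFinite _
  rw [nv_card, Nat.card_eq_fintype_card, ← Ideal.Quotient.eq_zero_iff_mem, map_sub, map_pow,
    FiniteField.pow_card, sub_self]

section above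

variable (v : HeightOneSpectrum (𝓞 K)) (u : HeightOneSpectrum (𝓞 F))
  [hl : u.asIdeal.LiesOver v.asIdeal]

lemma mem_ab {x : 𝓞 K} : algebraMap (𝓞 K) (𝓞 F) x ∈ u.asIdeal ↔ x ∈ v.asIdeal :=
  (Ideal.mem_of_liesOver u.asIdeal v.asIdeal x).symm

lemma two_up (h2 : (2 : 𝓞 K) ∉ v.asIdeal) : (2 : 𝓞 F) ∉ u.asIdeal := by
  intro h
  apply h2
  rw [← mem_ab v u, map_ofNat]
  exact h

lemma MQ.r_notMem (h : MQ D r) {g : 𝒢} (hg : D g ∉ v.asIdeal) : r g ∉ u.asIdeal := by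
  intro h1
  apply hg
  rw [← mem_ab v u, ← h.sq]
  exact Ideal.pow_mem_of_mem _ h1 2 two_pos

lemma MQ.smul_r (h : MQ D r) (t : F ≃ₐ[K] F) (g : 𝒢) :
    (ep r t g = 1 ∧ t • r g = r g) ∨ (ep r t g = -1 ∧ t • r g = -r g) := by
  rcases Int.units_eq_one_or (ep r t g) with h1 | h1
  · left
    refine ⟨h1, RingOfIntegers.ext ?_⟩
    show t (r g : F) = _
    exact h.ep_fix.1 h1
  · right
    refine ⟨h1, RingOfIntegers.ext ?_⟩
    show t (r g : F) = -(r g : F)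
    rw [h.ep_spec, h1]
    simp

lemma MQ.not_neg (h : MQ D r) (h2 : (2 : 𝓞 K) ∉ v.asIdeal) {g : 𝒢} (hg : D g ∉ v.asIdeal) :
    -r g - r g ∉ u.asIdeal := by
  intro h1
  have h3 : (2 : 𝓞 F) * r g ∈ u.asIdeal := by
    have : (2 : 𝓞 F) * r g = -(-r g - r g) := by ring
    rw [this]
    exact neg_mem h1
  rcases u.isPrime.mem_or_mem h3 with h4 | h4
  · exact two_up v u h2 h4
  · exact h.r_notMem v u hg h4

/-- the inertia group -/
lemma MQ.inertia (h : MQ D r) (h2 : (2 : 𝓞 K) ∉ v.asIdeal) {g : 𝒢} (hg : D g ∉ v.asIdeal)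
    {t : F ≃ₐ[K] F} (ht : ∀ x : 𝓞 F, t • x - x ∈ u.asIdeal) : ep r t g = 1 := by
  rcases h.smul_r t g with h1 | h1
  · exact h1.1
  · exfalso
    have h3 := ht (r g)
    rw [h1.2] at h3
    exact h.not_neg v u h2 hg h3

/-- the Frobenius automorphism -/
lemma MQ.frob (h : MQ D r) (h2 : (2 : 𝓞 K) ∉ v.asIdeal) {g : 𝒢} (hg : D g ∉ v.asIdeal)
    {t : F ≃ₐ[K] F} (ht : ∀ x : 𝓞 F, t • x - x ^ Ideal.absNorm v.asIdeal ∈ u.asIdeal) :
    ep r t g = 1 ↔ ∃ y, D g - y ^ 2 ∈ v.asIdeal := by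
  set q := Ideal.absNorm v.asIdeal with hq
  have key : ∀ e : 𝓞 K, D g ^ (q / 2) - e ∈ v.asIdeal → q % 2 = 1 →
      t • r g - algebraMap (𝓞 K) (𝓞 F) e * r g ∈ u.asIdeal := by
    intro e he hodd
    have e1 : r g ^ q = algebraMap (𝓞 K) (𝓞 F) (D g ^ (q / 2)) * r g := by
      have e2 : q = 2 * (q / 2) + 1 := by omega
      conv_lhs => rw [e2, pow_succ, pow_mul, h.sq, ← map_pow]
    have h3 := ht (r g)
    rw [e1] at h3
    have h4 : algebraMap (𝓞 K) (𝓞 F) (D g ^ (q / 2) - e) * r g ∈ u.asIdeal :=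
      u.asIdeal.mul_mem_right _ ((mem_ab v u).2 he)
    have h5 := u.asIdeal.add_mem h3 h4
    have e3 : t • r g - algebraMap (𝓞 K) (𝓞 F) (D g ^ (q / 2)) * r g +
        algebraMap (𝓞 K) (𝓞 F) (D g ^ (q / 2) - e) * r g =
        t • r g - algebraMap (𝓞 K) (𝓞 F) e * r g := by
      rw [map_sub]
      ring
    rwa [e3] at h5
  constructor
  · intro h1
    by_contra hcon
    obtain ⟨h3, h4⟩ := euler_neg hg hcon h2
    have h5 := key (-1) (by rw [sub_neg_eq_add]; exact h3) h4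
    rcases h.smul_r t g with h6 | h6
    · rw [h6.2, map_neg, map_one] at h5
      have h7 : -r g - r g = -(r g - -1 * r g) := by ring
      apply h.not_neg v u h2 hg
      rw [h7]
      exact neg_mem h5
    · rw [h6.1] at h1
      exact absurd h1 (by decide)
  · rintro ⟨y, hy⟩
    obtain ⟨h3, h4⟩ := euler_one hg hy h2
    have h5 := key 1 h3 h4
    rcases h.smul_r t g with h6 | h6
    · exact h6.1
    · exfalso
      rw [h6.2, map_one, one_mul] at h5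
      exact h.not_neg v u h2 hg h5

omit [NumberField F] in
lemma mul_memV (h : MQ D r) {g g' : 𝒢} (hg : D g ∉ v.asIdeal) (hg' : D g' ∉ v.asIdeal) :
    D (g * g') ∉ v.asIdeal := by
  intro h1
  obtain ⟨k, hk, h2⟩ := h.mul g g'
  have h3 : D g * D g' ∈ v.asIdeal := by
    rw [← h2]
    exact v.asIdeal.mul_mem_right _ h1
  rcases v.isPrime.mem_or_mem h3 with h4 | h4
  · exact hg h4
  · exact hg' h4

omit [NumberField F] in
lemma val_one {x : 𝓞 K} (hx : x ∉ v.asIdeal) : v.valuation K (x : K) = 1 :=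
  v.valuation_eq_one_iff_notMem.2 hx

omit [NumberField F] in
lemma val_exp {x : K} (hx : x ≠ 0) : ∃ k : ℤ, v.valuation K x = exp k := by
  have h1 : v.valuation K x ≠ 0 := (Valuation.ne_zero_iff _).2 hx
  exact ⟨log (v.valuation K x), (exp_log h1).symm⟩

omit [NumberField F] in
/-- parity of the valuations -/
lemma parity (h : MQ D r) (g g' : 𝒢) :
    (D (g * g') ∈ v.asIdeal ↔ (D g ∈ v.asIdeal ↔ D g' ∉ v.asIdeal)) := by
  obtain ⟨k, hk, h2⟩ := h.mul g g'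
  have hk0 : (k : K) ≠ 0 := fun h3 => hk (RingOfIntegers.ext h3)
  obtain ⟨m, hm⟩ := val_exp v hk0
  have h3 := congrArg (fun x : 𝓞 K => v.valuation K (x : K)) h2
  simp only [map_mul, map_pow] at h3
  have e : ∀ g, ∃ j : ℤ, v.valuation K (algebraMap (𝓞 K) K (D g)) = exp j ∧
      (D g ∈ v.asIdeal ∧ j = -1 ∨ D g ∉ v.asIdeal ∧ j = 0) := by
    intro g
    by_cases hg : D g ∈ v.asIdeal
    · exact ⟨-1, h.val g v hg, Or.inl ⟨hg, rfl⟩⟩
    · exact ⟨0, by rw [exp_zero]; exact val_one v hg, Or.inr ⟨hg, rfl⟩⟩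
  obtain ⟨j1, e1, f1⟩ := e (g * g')
  obtain ⟨j2, e2, f2⟩ := e g
  obtain ⟨j3, e3, f3⟩ := e g'
  have hm' : v.valuation K (algebraMap (𝓞 K) K k) = exp m := hm
  rw [e1, e2, e3, hm', ← exp_nsmul, ← exp_add, ← exp_add] at h3
  have h4 := exp_injective h3
  simp only [nsmul_eq_mul, Nat.cast_ofNat] at h4
  rcases f1 with ⟨a1, b1⟩ | ⟨a1, b1⟩ <;> rcases f2 with ⟨a2, b2⟩ | ⟨a2, b2⟩ <;>
    rcases f3 with ⟨a3, b3⟩ | ⟨a3, b3⟩ <;> simp only [a1, a2, a3, b1, b2, b3] at h4 ⊢ <;> simp <;> omega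

end above

end Run7.h323.BT
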