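import Pool.Agent.Run7.h323.BT.Dec

/-!
Multiquadratic extensions of number fields: the decomposition law at the odd places.
-/

set_option autoImplicit false
set_option linter.unusedSectionVars false

namespace Run7.h323.BT

open NumberField IsDedekindDomain WithZero

variable {K F : Type} [Field K] [NumberField K] [Field F] [NumberField F] [Algebra K F]
  {𝒢 : Type} [CommGroup 𝒢] {D : 𝒢 → 𝓞 K} {r : 𝒢 → 𝓞 F}
  (v : HeightOneSpectrum (𝓞 K)) (u : HeightOneSpectrum (𝓞 F)) [hl : u.asIdeal.LiesOver v.asIdeal]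

/-- the ramification index is even -/
lemma MQ.two_le_ram (h : MQ D r) {g : 𝒢} (hg : D g ∈ v.asIdeal) :
    2 ≤ v.asIdeal.ramificationIdx' u.asIdeal := by
  have h0 : v.asIdeal.ramificationIdx' u.asIdeal ≠ 0 :=
    Ideal.IsDedekindDomain.ramificationIdx'_ne_zero_of_liesOver u.asIdeal v.ne_bot
  have h1 := HeightOneSpectrum.valuation_liesOver (K := K) F v u (D g : K)
  rw [h.val g v hg, ← h.sqF g, map_pow, ← exp_nsmul] at h1
  obtain ⟨m, hm⟩ := val_exp u (h.rne g)
  rw [hm, ← exp_nsmul] at h1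
  have h2 := exp_injective h1
  simp only [nsmul_eq_mul, Nat.cast_ofNat] at h2
  omega

/-- the inertia group as a set of automorphisms -/
lemma mem_inertia_iff {t : F ≃ₐ[K] F} :
    t ∈ u.asIdeal.inertia (F ≃ₐ[K] F) ↔ ∀ x : 𝓞 F, t • x - x ∈ u.asIdeal := Iff.rfl

variable [IsGalois K F]

lemma card_inertia : Nat.card (u.asIdeal.inertia (F ≃ₐ[K] F)) =
    v.asIdeal.ramificationIdx' u.asIdeal := by
  rw [Ideal.card_inertia_eq_ramificationIdxIn v.asIdeal u.asIdeal,
    Ideal.ramificationIdxIn_eq_ramificationIdx v.asIdeal u.asIdeal (F ≃ₐ[K] F),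
    Ideal.ramificationIdx'_eq_ramificationIdx v.asIdeal u.asIdeal v.ne_bot]

variable [Finite 𝒢]

/-- **the inertia group** -/
theorem MQ.inertia_odd (h : MQ D r) (h2 : (2 : 𝓞 K) ∉ v.asIdeal) :
    (∀ t : F ≃ₐ[K] F, (∀ g, D g ∉ v.asIdeal → ep r t g = 1) → ∀ x : 𝓞 F, t • x - x ∈ u.asIdeal) ∧
      v.asIdeal.ramificationIdx' u.asIdeal * Nat.card {g // D g ∉ v.asIdeal} = Nat.card 𝒢 := by
  classical
  by_cases hall : ∀ g, D g ∉ v.asIdeal
  · constructor
    · intro t ht x
      have h1 := h.eq_one fun g => ht g (hall g)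
      rw [h1, one_smul, sub_self]
      exact u.asIdeal.zero_mem
    · have h1 : Nat.card (u.asIdeal.inertia (F ≃ₐ[K] F)) = 1 := by
        rw [Nat.card_eq_one_iff_unique]
        refine ⟨⟨fun s t => ?_⟩, ⟨1⟩⟩
        have h3 : ∀ s : u.asIdeal.inertia (F ≃ₐ[K] F), s.1 = 1 := fun s =>
          h.eq_one fun g => h.inertia v u h2 (hall g) ((mem_inertia_iff u).1 s.2)
        exact Subtype.ext ((h3 s).trans (h3 t).symm)
      rw [← card_inertia v u, h1, one_mul]
      exact Nat.card_congr (Equiv.subtypeUnivEquiv hall)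
  · push Not at hall
    obtain ⟨g0, hg0⟩ := hall
    set P : Set (F ≃ₐ[K] F) := {t | ∀ g, D g ∉ v.asIdeal → ep r t g = 1} with hP
    have hIP : (u.asIdeal.inertia (F ≃ₐ[K] F) : Set (F ≃ₐ[K] F)) ⊆ P := by
      intro t ht g hg
      exact h.inertia v u h2 hg ((mem_inertia_iff u).1 ht)
    have hPfin : P.Finite := Set.toFinite P
    have hPc : P.ncard ≤ 2 := by
      have h3 : Nat.card P ≤ Nat.card ℤˣ := by
        refine Nat.card_le_card_of_injective (fun t : P => ep r t.1 g0) ?_
        intro s t hst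
        apply Subtype.ext
        have hst' : ep r s.1 g0 = ep r t.1 g0 := hst
        have h4 : ∀ g, ep r s.1 g = ep r t.1 g := by
          intro g
          by_cases hg : D g ∈ v.asIdeal
          · have h5 : D (g * g0) ∉ v.asIdeal := by
              rw [parity v h]
              simp [hg, hg0]
            have e1 := s.2 _ h5
            have e2 := t.2 _ h5
            rw [h.ep_mul_right] at e1 e2
            rw [hst'] at e1
            exact mul_right_cancel (e1.trans e2.symm)
          · rw [s.2 g hg, t.2 g hg]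
        have h5 : s.1 * t.1 = 1 := by
          apply h.eq_one
          intro g
          rw [h.ep_mul_left, h4, Int.units_mul_self]
        exact mul_right_cancel (h5.trans (h.sq_one t.1).symm)
      have h4 : Nat.card ℤˣ = 2 := by
        rw [Nat.card_eq_fintype_card]
        rfl
      rw [h4] at h3
      exact h3
    have hIc : Nat.card (u.asIdeal.inertia (F ≃ₐ[K] F)) =
        (u.asIdeal.inertia (F ≃ₐ[K] F) : Set (F ≃ₐ[K] F)).ncard := rfl
    have h3 := h.two_le_ram v u hg0
    rw [← card_inertia v u, hIc] at h3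
    have hIle := Set.ncard_le_ncard hIP hPfin
    have hIPe := Set.eq_of_subset_of_ncard_le hIP (by omega) hPfin
    constructor
    · intro t ht
      have h4 : t ∈ (u.asIdeal.inertia (F ≃ₐ[K] F) : Set (F ≃ₐ[K] F)) := by
        rw [hIPe]
        exact ht
      exact h4
    · rw [← card_inertia v u, hIc]
      have h4 : (u.asIdeal.inertia (F ≃ₐ[K] F) : Set (F ≃ₐ[K] F)).ncard = 2 := by omega
      rw [h4]
      -- the two halves
      have e1 : Nat.card {g // D g ∈ v.asIdeal} = Nat.card {g // D g ∉ v.asIdeal} := by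
        refine Nat.card_congr
          { toFun := fun g => ⟨g.1 * g0, ?_⟩
            invFun := fun g => ⟨g.1 * g0⁻¹, ?_⟩
            left_inv := fun g => Subtype.ext (by simp)
            right_inv := fun g => Subtype.ext (by simp) }
        · rw [parity v h]
          simp [g.2, hg0]
        · have h5 := parity v h (g.1 * g0⁻¹) g0
          rw [inv_mul_cancel_right] at h5
          by_contra h6
          exact g.2 (h5.2 (iff_of_false h6 (by simp [hg0]))) 
      have e2 : Nat.card {g // D g ∈ v.asIdeal} + Nat.card {g // D g ∉ v.asIdeal} = Nat.card 𝒢 := by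
        rw [← Nat.card_sum]
        exact Nat.card_congr (Equiv.sumCompl fun g => D g ∈ v.asIdeal)
      omega

/-- **the decomposition law at the odd places** -/
theorem MQ.dec_odd (h : MQ D r) (h2 : (2 : 𝓞 K) ∉ v.asIdeal) :
    ∃ f : ℕ, (f = 1 ∨ f = 2) ∧ Ideal.absNorm u.asIdeal = Ideal.absNorm v.asIdeal ^ f ∧
      (f = 1 ↔ ∀ g, D g ∉ v.asIdeal → ∃ y, D g - y ^ 2 ∈ v.asIdeal) ∧
      (v.asIdeal.primesOver (𝓞 F)).ncard * f = Nat.card {g // D g ∉ v.asIdeal} := by
  classical
  obtain ⟨hI, he⟩ := h.inertia_odd v u h2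
  set f := u.asIdeal.inertiaDeg (𝓞 K) with hf
  have hN : Ideal.absNorm v.asIdeal ^ f = Ideal.absNorm u.asIdeal :=
    Ideal.absNorm_pow_inertiaDeg v.asIdeal u.asIdeal
  have hf0 : 0 < f := Ideal.inertiaDeg_pos u.asIdeal (𝓞 K)
  have hv2 := nv_two v
  -- Frobenius
  obtain ⟨φ, hφ⟩ := IsArithFrobAt.exists_of_isInvariant (𝓞 K) (F ≃ₐ[K] F) u.asIdeal
  have hφ' : ∀ x : 𝓞 F, φ • x - x ^ Ideal.absNorm v.asIdeal ∈ u.asIdeal := by
    intro x
    have h1 := hφ x
    have e1 : u.asIdeal.under (𝓞 K) = v.asIdeal := (Ideal.over_def u.asIdeal v.asIdeal).symm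
    rw [e1, ← nv_card] at h1
    exact h1
  have hle : ∀ j : ℕ, 0 < j → (∀ x : 𝓞 F, x ^ Ideal.absNorm v.asIdeal ^ j - x ∈ u.asIdeal) →
      f ≤ j := by
    intro j hj hx
    have h1 := card_le_of_pow (v := u) (N := Ideal.absNorm v.asIdeal ^ j)
      (Nat.one_lt_pow (by omega) (by omega)) hx
    rw [← hN] at h1
    exact (Nat.pow_le_pow_iff_right (by omega)).1 h1
  have hpow : ∀ (x y : 𝓞 F) (N : ℕ), x - y ∈ u.asIdeal → x ^ N - y ^ N ∈ u.asIdeal := by
    intro x y N hxy
    rw [← Ideal.Quotient.eq_zero_iff_mem, map_sub, sub_eq_zero] at hxy ⊢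
    rw [map_pow, map_pow, hxy]
  have hf2 : f ≤ 2 := by
    apply hle 2 two_pos
    intro x
    have h1 := hφ' (φ • x)
    rw [← mul_smul, h.sq_one, one_smul] at h1
    have h3 := hpow _ _ (Ideal.absNorm v.asIdeal) (hφ' x)
    have h4 := u.asIdeal.add_mem h1 h3
    have e1 : x - (φ • x) ^ Ideal.absNorm v.asIdeal + ((φ • x) ^ Ideal.absNorm v.asIdeal -
        (x ^ Ideal.absNorm v.asIdeal) ^ Ideal.absNorm v.asIdeal) =
        -(x ^ Ideal.absNorm v.asIdeal ^ 2 - x) := by
      rw [← pow_mul, pow_two (Ideal.absNorm v.asIdeal)]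
      ring
    rw [e1, neg_mem_iff] at h4
    exact h4
  have hiff : f = 1 ↔ ∀ g, D g ∉ v.asIdeal → ∃ y, D g - y ^ 2 ∈ v.asIdeal := by
    constructor
    · intro h1 g hg
      apply (h.frob v u h2 hg hφ').1
      apply h.inertia v u h2 hg
      intro x
      have h3 := hφ' x
      have h4 := pow_of_norm (v := u) x
      rw [← hN, h1, pow_one] at h4
      have h5 := u.asIdeal.add_mem h3 h4
      rwa [sub_add_sub_cancel] at h5
    · intro h1
      have h3 := hI φ fun g hg => (h.frob v u h2 hg hφ').2 (h1 g hg)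
      have h4 : f ≤ 1 := by
        apply hle 1 one_pos
        intro x
        rw [pow_one]
        have h5 := u.asIdeal.sub_mem (h3 x) (hφ' x)
        have e1 : φ • x - x - (φ • x - x ^ Ideal.absNorm v.asIdeal) =
            x ^ Ideal.absNorm v.asIdeal - x := by ring
        rwa [e1] at h5
      omega
  refine ⟨f, by omega, hN.symm, hiff, ?_⟩
  have h3 := Ideal.ncard_primesOver_mul_card_inertia_mul_finrank (G := (F ≃ₐ[K] F)) v.asIdeal
    u.asIdeal
  rw [card_inertia v u, h.card, ← he] at h3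
  have h4 : v.asIdeal.ramificationIdx' u.asIdeal ≠ 0 :=
    Ideal.IsDedekindDomain.ramificationIdx'_ne_zero_of_liesOver u.asIdeal v.ne_bot
  apply Nat.eq_of_mul_eq_mul_left (Nat.pos_of_ne_zero h4)
  rw [← h3]
  ring

end Run7.h323.BT
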