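import Pool.Agent.Run7.h323.BT.Dec2
import Pool.Agent.K4H55.CX.Emb
import Pool.Agent.Y682.Lcl

/-!
Multiquadratic extensions of number fields: the places which split completely.
-/

set_option autoImplicit false
set_option linter.unusedSectionVars false

namespace Run7.h323.BT

open NumberField IsDedekindDomain WithZero
open scoped Pointwise
open Pool.Agent.K4H55.CX (plc plc_le plc_lt mem_plc emb_int)
open Pool.Agent.Y682 (vv vv_coe exists_approx)

variable {K F : Type} [Field K] [NumberField K] [Field F] [NumberField F] [Algebra K F]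
  {𝒢 : Type} [CommGroup 𝒢] {D : 𝒢 → 𝓞 K} {r : 𝒢 → 𝓞 F}
  {v : HeightOneSpectrum (𝓞 K)}

instance plc_over (ψ : F →ₐ[K] v.adicCompletion K) : (plc ψ).asIdeal.LiesOver v.asIdeal := by
  constructor
  ext x
  rw [Ideal.mem_comap, mem_plc]
  have e : ψ ((algebraMap (𝓞 K) (𝓞 F) x : 𝓞 F) : F) = algebraMap K (v.adicCompletion K) (x : K) :=
    ψ.commutes (x : K)
  rw [e]
  have h2 : Valued.v (algebraMap K (v.adicCompletion K) (x : K)) = v.valuation K (x : K) :=
    HeightOneSpectrum.valuedAdicCompletion_eq_valuation' v (x : K)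
  rw [h2]
  exact (v.valuation_lt_one_iff_mem (K := K) x).symm

/-- small elements -/
lemma plc_lt' (ψ : F →ₐ[K] v.adicCompletion K) {x : F} (hx : Valued.v (ψ x) < 1) :
    (plc ψ).valuation F x < 1 := by
  by_cases h0 : x = 0
  · rw [h0, map_zero]
    exact zero_lt_one
  by_contra hcon
  rw [not_lt] at hcon
  have h1 : (plc ψ).valuation F x⁻¹ ≤ 1 := by
    rw [map_inv₀]
    exact inv_le_one_of_one_le₀ hcon
  have h2 := plc_le ψ h1
  rw [map_inv₀, map_inv₀] at h2
  have h3 : Valued.v (ψ x) ≠ 0 := (Valuation.ne_zero_iff _).2 ((_root_.map_ne_zero ψ).2 h0)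
  have h4 := (inv_le_one₀ (zero_lt_iff.2 h3)).1 h2
  exact absurd hx (not_lt.2 h4)

/-- automorphisms in the decomposition group -/
lemma stab_lt {u : HeightOneSpectrum (𝓞 F)} {t : F ≃ₐ[K] F}
    (ht : ∀ x : 𝓞 F, t • x ∈ u.asIdeal ↔ x ∈ u.asIdeal) {x : F} (hx : u.valuation F x < 1) :
    u.valuation F (t x) < 1 := by
  obtain ⟨n, d, hnd⟩ := u.exists_primeCompl_mul_eq_of_integer x hx.le
  have hd : (d : 𝓞 F) ∉ u.asIdeal := d.2
  have hdv : u.valuation F (algebraMap (𝓞 F) F d) = 1 := u.valuation_eq_one_iff_notMem.2 hd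
  have hn : n ∈ u.asIdeal := by
    have h1 := congrArg (u.valuation F) hnd
    rw [map_mul, hdv, mul_one] at h1
    rw [← u.valuation_lt_one_iff_mem (K := F), ← h1]
    exact hx
  have h1 : t x * ((t • (d : 𝓞 F) : 𝓞 F) : F) = ((t • n : 𝓞 F) : F) := by
    have h2 := congrArg t hnd
    rw [map_mul] at h2
    exact h2
  have h3 : u.valuation F ((t • (d : 𝓞 F) : 𝓞 F) : F) = 1 :=
    u.valuation_eq_one_iff_notMem.2 fun h4 => hd ((ht _).1 h4)
  have h4 : u.valuation F ((t • n : 𝓞 F) : F) < 1 :=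
    (u.valuation_lt_one_iff_mem (K := F) _).2 ((ht n).2 hn)
  rw [← h1, map_mul, h3, mul_one] at h4
  exact h4

/-- the decomposition group is trivial -/
theorem MQ.stab_split (h : MQ D r) (ψ : F →ₐ[K] v.adicCompletion K) {t : F ≃ₐ[K] F}
    (ht : ∀ x : 𝓞 F, t • x ∈ (plc ψ).asIdeal ↔ x ∈ (plc ψ).asIdeal) : t = 1 := by
  apply h.eq_one
  intro g
  rcases Int.units_eq_one_or (ep r t g) with h1 | h1
  · exact h1
  exfalso
  have h2 : t (r g : F) = -(r g : F) := by
    rw [h.ep_spec, h1]
    simp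
  have h20 : (2 : F) * (r g : F) ≠ 0 := mul_ne_zero two_ne_zero (h.rne g)
  have h3 : Valued.v (ψ (2 * (r g : F))) ≠ 0 :=
    (Valuation.ne_zero_iff _).2 ((_root_.map_ne_zero ψ).2 h20)
  obtain ⟨k, hk⟩ := exists_approx v (ψ (r g : F)) _ h3
  set w : F := ((r g : F) - algebraMap K F k) / (2 * (r g : F)) with hw
  have hw1 : Valued.v (ψ w) < 1 := by
    rw [hw, map_div₀, map_div₀, map_sub, ψ.commutes, Valuation.map_sub_swap]
    exact (div_lt_one₀ (zero_lt_iff.2 h3)).2 hk
  have hw2 := plc_lt' ψ hw1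
  have hw3 := stab_lt ht hw2
  have e : t w = ((r g : F) + algebraMap K F k) / (2 * (r g : F)) := by
    rw [hw, map_div₀, map_sub, map_mul, h2, t.commutes, map_ofNat]
    have := h.rne g
    field_simp
    ring
  have e2 : w + t w = 1 := by
    rw [e, hw]
    have := h.rne g
    field_simp
    ring
  have h4 := ((plc ψ).valuation F).map_add_lt hw2 hw3
  rw [e2, map_one] at h4
  exact lt_irrefl _ h4

variable [IsGalois K F] [Finite 𝒢]

/-- **the decomposition law at the places which split completely** -/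
theorem MQ.dec_split (h : MQ D r) (ψ : F →ₐ[K] v.adicCompletion K) (u : HeightOneSpectrum (𝓞 F))
    [hl : u.asIdeal.LiesOver v.asIdeal] :
    Ideal.absNorm u.asIdeal = Ideal.absNorm v.asIdeal ∧
      (v.asIdeal.primesOver (𝓞 F)).ncard = Nat.card 𝒢 := by
  classical
  set P := (plc ψ).asIdeal with hP
  have hPp : P.IsPrime := (plc ψ).isPrime
  have hst : Nat.card (MulAction.stabilizer (F ≃ₐ[K] F) P) = 1 := by
    rw [Nat.card_eq_one_iff_unique]
    refine ⟨⟨fun s t => ?_⟩, ⟨1⟩⟩
    have h3 : ∀ s : MulAction.stabilizer (F ≃ₐ[K] F) P, s.1 = 1 := by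
      intro s
      apply h.stab_split ψ
      intro x
      have h4 : s.1 • P = P := s.2
      constructor
      · intro h5
        have h6 : s.1 • x ∈ s.1 • P := by rw [h4]; exact h5
        exact (Ideal.smul_mem_pointwise_smul_iff).1 h6
      · intro h5
        have h6 := (Ideal.smul_mem_pointwise_smul_iff (a := s.1) (S := P)).2 h5
        rwa [h4] at h6
    exact Subtype.ext ((h3 s).trans (h3 t).symm)
  have h1 := Ideal.card_stabilizer_eq_card_inertia_mul_finrank (G := (F ≃ₐ[K] F)) v.asIdeal P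
  rw [hst] at h1
  have hI := Nat.eq_one_of_mul_eq_one_right h1.symm
  have hf := Nat.eq_one_of_mul_eq_one_left h1.symm
  have h2 := Ideal.ncard_primesOver_mul_card_inertia_mul_finrank (G := (F ≃ₐ[K] F)) v.asIdeal P
  rw [hI, hf, mul_one, mul_one, h.card] at h2
  refine ⟨?_, h2⟩
  have h3 := Ideal.inertiaDegIn_eq_inertiaDeg v.asIdeal P (F ≃ₐ[K] F)
  have h4 := Ideal.inertiaDegIn_eq_inertiaDeg v.asIdeal u.asIdeal (F ≃ₐ[K] F)
  rw [h3, hf] at h4
  have h5 := Ideal.absNorm_pow_inertiaDeg v.asIdeal u.asIdeal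
  rw [← h4, pow_one] at h5
  exact h5.symm

/-- the field is generated by the square roots -/
lemma MQ.gen (h : MQ D r) : IntermediateField.adjoin K (Set.range fun g => (r g : F)) = ⊤ := by
  rw [← IsGalois.fixedField_fixingSubgroup (IntermediateField.adjoin K (Set.range fun g => (r g : F)))]
  have h1 : (IntermediateField.adjoin K (Set.range fun g => (r g : F))).fixingSubgroup = ⊥ := by
    rw [eq_bot_iff]
    intro t ht
    rw [Subgroup.mem_bot]
    apply h.sep
    intro g
    rw [IntermediateField.mem_fixingSubgroup_iff] at ht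
    exact ht _ (IntermediateField.subset_adjoin K _ ⟨g, rfl⟩)
  rw [h1]
  exact IntermediateField.fixedField_bot

/-- the embedding in the completion -/
theorem MQ.exists_emb (h : MQ D r)
    (hsq : ∀ g, IsSquare (algebraMap K (v.adicCompletion K) (D g : K))) :
    Nonempty (F →ₐ[K] v.adicCompletion K) := by
  refine IntermediateField.nonempty_algHom_of_adjoin_splits ?_ h.gen
  rintro _ ⟨g, rfl⟩
  have hint : IsIntegral K (r g : F) := IsIntegral.of_finite K _
  refine ⟨hint, ?_⟩
  have h1 : minpoly K (r g : F) ∣ Polynomial.X ^ 2 - Polynomial.C (D g : K) := by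
    apply minpoly.dvd
    simp only [map_sub, map_pow, Polynomial.aeval_X, Polynomial.aeval_C]
    rw [h.sqF, sub_self]
  obtain ⟨z, hz⟩ := hsq g
  have h2 : ((Polynomial.X ^ 2 - Polynomial.C (D g : K)).map
      (algebraMap K (v.adicCompletion K))).Splits := by
    have e : (Polynomial.X ^ 2 - Polynomial.C (D g : K)).map (algebraMap K (v.adicCompletion K)) =
        (Polynomial.X - Polynomial.C z) * (Polynomial.X - Polynomial.C (-z)) := by
      rw [Polynomial.map_sub, Polynomial.map_pow, Polynomial.map_X, Polynomial.map_C, hz,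
        Polynomial.C_mul, Polynomial.C_neg]
      ring
    rw [e]
    exact (Polynomial.Splits.X_sub_C z).mul (Polynomial.Splits.X_sub_C (-z))
  refine h2.of_dvd ?_ (Polynomial.map_dvd _ h1)
  intro h0
  have h3 := congrArg Polynomial.natDegree h0
  rw [Polynomial.natDegree_map, Polynomial.natDegree_X_pow_sub_C, Polynomial.natDegree_zero] at h3
  omega

end Run7.h323.BT
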