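import Pool.Agent.Run7.h323.BT.Dat

/-!
The finite layers of the towers.
-/

set_option autoImplicit false
set_option linter.unusedSectionVars false

namespace Run7.h323.BT

open NumberField IsDedekindDomain WithZero Filter Topology
open Pool.Agent.K4H55.BI (IQ BF NVT sym chiT gen gen_span gen_dvd gen_prime gen_na gen_inj efac)
open Pool.Agent.K4H55.BD (crv low mem_low Cub)
open Pool.Agent.K4H55.CX (SelG fin_up)

variable {K : Type} [Field K] [NumberField K] [IsPrincipalIdealRing (𝓞 K)]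
  {a b n : 𝓞 K} {c : Ideal (𝓞 K) → ℂ}

/-- the properties of the twists -/
structure TD {G : Type} (a b n : 𝓞 K) (c : Ideal (𝓞 K) → ℂ) (D : G → 𝓞 K)
    (T : G → Finset (HeightOneSpectrum (𝓞 K))) : Prop where
  sq : ∀ g, ∀ v : HeightOneSpectrum (𝓞 K), 2 * (4 * a ^ 3 + 27 * b ^ 2) ∈ v.asIdeal →
    IsSquare (algebraMap K (v.adicCompletion K) (D g : K))
  adm : ∀ g, ∀ v : HeightOneSpectrum (𝓞 K), D g ∈ v.asIdeal →
    2 * (4 * a ^ 3 + 27 * b ^ 2) ∉ v.asIdeal ∧ ∀ x : 𝓞 K, x ^ 3 + a * x + b ∉ v.asIdeal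
  mem : ∀ g, ∀ v : HeightOneSpectrum (𝓞 K), v ∈ T g ↔ D g ∈ v.asIdeal
  bad : ∀ g, ∀ v : HeightOneSpectrum (𝓞 K), 2 * (4 * a ^ 3 + 27 * b ^ 2) ∈ v.asIdeal →
    chiT (T g) (gen v) = 1
  recip : ∀ g, ∀ v : HeightOneSpectrum (𝓞 K), (2 : 𝓞 K) ∉ v.asIdeal → v ∉ T g →
    sym v (D g) = chiT (T g) (gen v)
  nv : ∀ g, NVT n c (T g)

lemma TD.lam_eq {G : Type} {D : G → 𝓞 K} {T : G → Finset (HeightOneSpectrum (𝓞 K))}
    (h : TD a b n c D T) (g : G) (v : HeightOneSpectrum (𝓞 K)) :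
    lam a b v (D g) = chiT (T g) (gen v) := by
  classical
  unfold lam
  by_cases h1 : 2 * (4 * a ^ 3 + 27 * b ^ 2) ∈ v.asIdeal
  · rw [if_pos h1, h.bad g v h1]
  · rw [if_neg h1]
    have h2 : (2 : 𝓞 K) ∉ v.asIdeal := fun h2 => h1 (v.asIdeal.mul_mem_right _ h2)
    by_cases h3 : v ∈ T g
    · have h4 : chiT (T g) (gen v) = 0 := by
        unfold chiT
        refine Finset.prod_eq_zero h3 ?_
        unfold sym
        rw [if_pos (gen_dvd.1 (dvd_refl (gen v)))]
      rw [h4]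
      unfold sym
      rw [if_pos ((h.mem g v).1 h3)]
    · exact h.recip g v h2 h3

lemma TD.fac_eq {G : Type} {D : G → 𝓞 K} {T : G → Finset (HeightOneSpectrum (𝓞 K))}
    (h : TD a b n c D T) (g : G) (v : HeightOneSpectrum (𝓞 K)) (s : ℂ) :
    eK n c s v (lam a b v (D g)) = efac n c (T g) s v := by
  rw [h.lam_eq]
  rfl

variable {G : Type} [CommGroup G] {D : G → 𝓞 K} {T : G → Finset (HeightOneSpectrum (𝓞 K))}

/-- **the `L`-function over the layers** -/
theorem layer_L (hd : KD D) (ht : TD a b n c D T) (hΔ : 4 * a ^ 3 + 27 * b ^ 2 ≠ 0)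
    (hc : ∀ v : HeightOneSpectrum (𝓞 K), 2 * (4 * a ^ 3 + 27 * b ^ 2) ∉ v.asIdeal →
      n ∉ v.asIdeal ∧ c v.asIdeal = (Ideal.absNorm v.asIdeal : ℂ) - pt a b v)
    (F : IntermediateField K (AlgebraicClosure K)) [FiniteDimensional K F] [NumberField F]
    (hF : F ≤ twr D) :
    ∃ Λ : ℂ → ℂ, Differentiable ℂ Λ ∧ (∀ s : ℂ, 2 < s.re → HasProd (fU (F := F) a b n c s) (Λ s)) ∧
      Λ 1 ≠ 0 := by
  classical
  have hab := layer_abelian F hF
  have hgal : IsGalois K F := inferInstance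
  obtain ⟨r, hr⟩ := hd.layer F hF
  have hfin : Finite (hd.sub F) := hr.fin
  have : Fintype (hd.sub F) := Fintype.ofFinite _
  choose L h1 h2 h3 using fun g : hd.sub F => ht.nv g.1
  refine ⟨fun s => ∏ g, L g s, Differentiable.fun_finsetProd fun g _ => h1 g, fun s hs => ?_,
    Finset.prod_ne_zero_iff.2 fun g _ => h3 g⟩
  refine hr.lfun hΔ hc (fun v hv g => ht.sq g.1 v hv) (fun g s hs => ?_) hs
  have h4 := h2 g s hs
  have e : (fun v : HeightOneSpectrum (𝓞 K) => eK n c s v (lam a b v (D g.1))) =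
      efac n c (T g.1) s := funext fun v => ht.fac_eq g.1 v s
  rw [e]
  exact h4

/-- **the points over the layers** -/
theorem layer_fin {L : Type} [Field L] [NumberField L] [Algebra K L] {θ : L} (hd : KD D)
    (ht : TD a b n c D T) (hΔ : 4 * a ^ 3 + 27 * b ^ 2 ≠ 0) (hK : Cub K θ)
    (hθ : θ ^ 3 + algebraMap K L a * θ + algebraMap K L b = 0) (hS : SelG a b θ)
    (F : IntermediateField K (AlgebraicClosure K)) [FiniteDimensional K F] [NumberField F]
    (hF : F ≤ twr D) :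
    (Finite (crv (algebraMap K F a) (algebraMap K F b)).toAffine.Point ∧
      Odd (Nat.card (crv (algebraMap K F a) (algebraMap K F b)).toAffine.Point)) ∧
    (∀ (k : ℕ) (s : Pool.Agent.TH841.NF.D.Sha (crv (algebraMap K F a) (algebraMap K F b))),
      (2 ^ k : ℕ) • s = 0 → s = 0) ∧
    ∀ x : Pool.Agent.Y667.BKP.H1f 2 (crv (algebraMap K F a) (algebraMap K F b)), x = 0 := by
  classical
  have hab := layer_abelian F hF
  have hgal : IsGalois K F := inferInstance
  obtain ⟨r, hr⟩ := hd.layer F hF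
  have hfin : Finite (hd.sub F) := hr.fin
  have hp : IsPGroup 2 (F ≃ₐ[K] F) := fun s => ⟨1, by rw [pow_one, pow_two]; exact layer_sq F hF s⟩
  obtain ⟨k, hk⟩ := IsPGroup.iff_card.1 hp
  rw [IsGalois.card_aut_eq_finrank] at hk
  refine fin_up (F := F) hΔ hK hθ hS hk (fun v hv => hr.exists_emb fun g => ht.sq g.1 v hv)
    fun u hu => ?_
  by_cases hall : ∀ g : hd.sub F, D g.1 ∉ (low (K := K) u).asIdeal
  · right
    intro x
    have h2 : (2 : 𝓞 K) ∉ (low (K := K) u).asIdeal := fun h2 =>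
      hu ((low (K := K) u).asIdeal.mul_mem_right _ h2)
    obtain ⟨-, h3⟩ := hr.inertia_odd (low (K := K) u) u h2
    have h4 : Nat.card {g : hd.sub F // D g.1 ∉ (low (K := K) u).asIdeal} = Nat.card (hd.sub F) :=
      Nat.card_congr (Equiv.subtypeUnivEquiv hall)
    rw [h4] at h3
    have h5 : 0 < Nat.card (hd.sub F) := Nat.card_pos
    have h6 : (low (K := K) u).asIdeal.ramificationIdx' u.asIdeal = 1 :=
      Nat.eq_of_mul_eq_mul_right h5 (by rw [h3, one_mul])
    have h7 := HeightOneSpectrum.valuation_liesOver (K := K) F (low (K := K) u) u x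
    rw [h6, pow_one] at h7
    exact h7.symm
  · left
    push Not at hall
    obtain ⟨g, hg⟩ := hall
    exact (ht.adm g.1 _ hg).2

end Run7.h323.BT
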