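import Pool.Agent.Run7.h323.BT.MQ

/-!
Kummer theory for the finite layers of a multiquadratic tower.
-/

set_option autoImplicit false
set_option linter.unusedSectionVars false

namespace Run7.h323.BT

open NumberField IsDedekindDomain WithZero IntermediateField

section fld

variable {K Ω : Type} [Field K] [Field Ω] [Algebra K Ω]

/-- the field `M(x)`, `x² ∈ M` (as in `Pool.Agent.K4H15.BW.qf`) -/
def qf (M : IntermediateField K Ω) (x : Ω) (hx : x ^ 2 ∈ M) : IntermediateField K Ω where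
  carrier := {z | ∃ u ∈ M, ∃ v ∈ M, z = u + v * x}
  mul_mem' := by
    rintro _ _ ⟨u, hu, v, hv, rfl⟩ ⟨u', hu', v', hv', rfl⟩
    refine ⟨u * u' + v * v' * x ^ 2, M.add_mem (M.mul_mem hu hu') (M.mul_mem (M.mul_mem hv hv') hx),
      u * v' + v * u', M.add_mem (M.mul_mem hu hv') (M.mul_mem hv hu'), by ring⟩
  add_mem' := by
    rintro _ _ ⟨u, hu, v, hv, rfl⟩ ⟨u', hu', v', hv', rfl⟩
    exact ⟨u + u', M.add_mem hu hu', v + v', M.add_mem hv hv', by ring⟩
  algebraMap_mem' r := ⟨algebraMap K Ω r, M.algebraMap_mem r, 0, M.zero_mem, by ring⟩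
  inv_mem' := by
    rintro _ ⟨u, hu, v, hv, rfl⟩
    by_cases h0 : u ^ 2 - v ^ 2 * x ^ 2 = 0
    · have h1 : (u + v * x) * (u - v * x) = 0 := by linear_combination h0
      rcases mul_eq_zero.1 h1 with h2 | h2
      · rw [h2, inv_zero]
        exact ⟨0, M.zero_mem, 0, M.zero_mem, by ring⟩
      · have h3 : u + v * x = 2 * u := by linear_combination -h2
        rw [h3]
        refine ⟨(2 * u)⁻¹, M.inv_mem (M.mul_mem ?_ hu), 0, M.zero_mem, by ring⟩
        exact_mod_cast _root_.natCast_mem M 2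
    · have hN : u ^ 2 - v ^ 2 * x ^ 2 ∈ M := by
        have hu2 : u ^ 2 ∈ M := by rw [sq]; exact M.mul_mem hu hu
        have hv2 : v ^ 2 ∈ M := by rw [sq]; exact M.mul_mem hv hv
        exact M.sub_mem hu2 (M.mul_mem hv2 hx)
      refine ⟨u * (u ^ 2 - v ^ 2 * x ^ 2)⁻¹, M.mul_mem hu (M.inv_mem hN),
        -v * (u ^ 2 - v ^ 2 * x ^ 2)⁻¹, M.mul_mem (M.neg_mem hv) (M.inv_mem hN), ?_⟩
      refine inv_eq_of_mul_eq_one_right ?_
      have e : (u + v * x) * (u * (u ^ 2 - v ^ 2 * x ^ 2)⁻¹ +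
          -v * (u ^ 2 - v ^ 2 * x ^ 2)⁻¹ * x) =
          (u ^ 2 - v ^ 2 * x ^ 2) * (u ^ 2 - v ^ 2 * x ^ 2)⁻¹ := by ring
      rw [e, mul_inv_cancel₀ h0]

lemma adjoin_insert (T : Set Ω) {x : Ω} (hx : x ^ 2 ∈ adjoin K T) {z : Ω}
    (hz : z ∈ adjoin K (insert x T)) :
    ∃ u ∈ adjoin K T, ∃ v ∈ adjoin K T, z = u + v * x := by
  have h1 : adjoin K (insert x T) ≤ qf (adjoin K T) x hx := by
    rw [adjoin_le_iff]
    rintro y (rfl | hy)
    · exact ⟨0, IntermediateField.zero_mem _, 1, IntermediateField.one_mem _, by ring⟩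
    · exact ⟨y, subset_adjoin K T hy, 0, IntermediateField.zero_mem _, by ring⟩
  exact h1 hz

end fld

variable {K : Type} [Field K] [NumberField K] {G : Type} [CommGroup G] {D : G → 𝓞 K}

/-- the classes of the `D x` modulo squares form a group isomorphic to `G` -/
structure KD (D : G → 𝓞 K) : Prop where
  mul : ∀ g h, ∃ k : 𝓞 K, k ≠ 0 ∧ D (g * h) * k ^ 2 = D g * D h
  ne : ∀ g, D g ≠ 0
  ns : ∀ g, g ≠ 1 → ¬ IsSquare (D g : K)
  val : ∀ g, ∀ v : HeightOneSpectrum (𝓞 K), D g ∈ v.asIdeal →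
    v.valuation K (D g : K) = exp (-1 : ℤ)

/-- the square roots -/
def rts (D : G → 𝓞 K) : Set (AlgebraicClosure K) :=
  {x | ∃ g, x ^ 2 = algebraMap K (AlgebraicClosure K) (D g : K)}

/-- the tower -/
noncomputable def twr (D : G → 𝓞 K) : IntermediateField K (AlgebraicClosure K) :=
  adjoin K (rts D)

lemma KD.neK (h : KD D) (g : G) : (D g : K) ≠ 0 := fun h1 => h.ne g (RingOfIntegers.ext h1)

/-- Kummer theory for finite sets of square roots -/
lemma KD.kum (h : KD D) (T : Finset (AlgebraicClosure K)) (hT : (T : Set (AlgebraicClosure K)) ⊆ rts D) :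
    ∀ z ∈ adjoin K (T : Set (AlgebraicClosure K)), ∀ w : K, w ≠ 0 →
      z ^ 2 = algebraMap K (AlgebraicClosure K) w → ∃ g, ∃ k : K, k ≠ 0 ∧ w = k ^ 2 * (D g : K) := by
  classical
  induction T using Finset.induction_on with
  | empty =>
    intro z hz w hw hzw
    rw [Finset.coe_empty, adjoin_empty, mem_bot] at hz
    obtain ⟨y, rfl⟩ := hz
    rw [← map_pow] at hzw
    have h1 := (algebraMap K (AlgebraicClosure K)).injective hzw
    obtain ⟨k, hk, h2⟩ := h.mul 1 1
    rw [mul_one] at h2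
    have h3 : D 1 = k ^ 2 := mul_left_cancel₀ (h.ne 1) h2.symm
    have hk0 : (k : K) ≠ 0 := fun h4 => hk (RingOfIntegers.ext h4)
    have h5 : (D 1 : K) = (k : K) ^ 2 := by rw [h3]; exact map_pow _ _ _
    refine ⟨1, y / k, ?_, ?_⟩
    · refine div_ne_zero ?_ hk0
      rintro rfl
      rw [zero_pow two_ne_zero] at h1
      exact hw h1.symm
    · rw [h5, ← h1]
      field_simp
  | insert y T hy ih =>
    intro z hz w hw hzw
    rw [Finset.coe_insert] at hz
    have hyr : y ∈ rts D := hT (by simp)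
    have ih' := ih fun x hx => hT (by rw [Finset.coe_insert]; exact Set.mem_insert_of_mem _ hx)
    obtain ⟨g0, hg0⟩ := hyr
    have hy2 : y ^ 2 ∈ adjoin K (T : Set (AlgebraicClosure K)) := by
      rw [hg0]
      exact IntermediateField.algebraMap_mem _ _
    by_cases hyT : y ∈ adjoin K (T : Set (AlgebraicClosure K))
    · have h1 : adjoin K (insert y (T : Set (AlgebraicClosure K))) ≤ adjoin K (T : Set _) := by
        rw [adjoin_le_iff]
        rintro x (rfl | hx)
        · exact hyT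
        · exact subset_adjoin K _ hx
      exact ih' z (h1 hz) w hw hzw
    · obtain ⟨u, hu, t, ht, rfl⟩ := adjoin_insert _ hy2 hz
      have hut : u = 0 ∨ t = 0 := by
        by_contra hcon
        push Not at hcon
        apply hyT
        have h2 : y = (algebraMap K (AlgebraicClosure K) w - u ^ 2 -
            t ^ 2 * algebraMap K (AlgebraicClosure K) (D g0 : K)) * (2 * u * t)⁻¹ := by
          have h3 : 2 * u * t ≠ 0 := mul_ne_zero (mul_ne_zero two_ne_zero hcon.1) hcon.2
          rw [← hzw, ← hg0, eq_mul_inv_iff_mul_eq₀ h3]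
          ring
        rw [h2]
        refine mul_mem (sub_mem (sub_mem (IntermediateField.algebraMap_mem _ _) (pow_mem hu 2))
          (mul_mem (pow_mem ht 2) (IntermediateField.algebraMap_mem _ _))) (inv_mem (mul_mem
          (mul_mem ?_ hu) ht))
        exact_mod_cast _root_.natCast_mem (adjoin K (T : Set (AlgebraicClosure K))) 2
      rcases hut with rfl | rfl
      · -- `z = t y`
        rw [zero_add, mul_pow, hg0] at hzw
        have hD0 : algebraMap K (AlgebraicClosure K) (D g0 : K) ≠ 0 :=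
          (_root_.map_ne_zero _).2 (h.neK g0)
        have h3 : t ^ 2 = algebraMap K (AlgebraicClosure K) (w / (D g0 : K)) := by
          rw [map_div₀, ← hzw]
          field_simp
        obtain ⟨g, k, hk, h4⟩ := ih' t ht (w / (D g0 : K)) (div_ne_zero hw (h.neK g0)) h3
        obtain ⟨l, hl, h5⟩ := h.mul g g0
        have hl0 : (l : K) ≠ 0 := fun h6 => hl (RingOfIntegers.ext h6)
        refine ⟨g * g0, k * l, mul_ne_zero hk hl0, ?_⟩
        have h6 : (D (g * g0) : K) * (l : K) ^ 2 = (D g : K) * (D g0 : K) := by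
          have := congrArg (algebraMap (𝓞 K) K) h5
          simpa only [map_mul, map_pow] using this
        rw [div_eq_iff (h.neK g0)] at h4
        rw [h4]
        linear_combination (-(k ^ 2)) * h6
      · rw [zero_mul, add_zero] at hzw
        exact ih' u hu w hw hzw

/-- Kummer theory in the tower -/
theorem KD.kum' (h : KD D) {z : AlgebraicClosure K} (hz : z ∈ twr D) {w : K} (hw : w ≠ 0)
    (hzw : z ^ 2 = algebraMap K (AlgebraicClosure K) w) :
    ∃ g, ∃ k : K, k ≠ 0 ∧ w = k ^ 2 * (D g : K) := by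
  obtain ⟨T, hT, hzT⟩ := IntermediateField.exists_finset_of_mem_adjoin hz
  exact h.kum T hT z hzT w hw hzw

/-- `K`-homomorphisms on the square roots -/
lemma rts_pm {D : G → 𝓞 K} {E : Type} [Field E] [Algebra K E] (i : E →ₐ[K] AlgebraicClosure K)
    {x : E} (hx : i x ∈ rts D) (s : E ≃ₐ[K] E) : s x = x ∨ s x = -x := by
  obtain ⟨g, hg⟩ := hx
  have h0 : x ^ 2 = algebraMap K E (D g : K) := by
    apply (i : E →+* AlgebraicClosure K).injective
    rw [map_pow]
    exact hg.trans (i.commutes _).symm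
  have h1 : s x ^ 2 = x ^ 2 := by rw [← map_pow, h0, s.commutes]
  exact sq_eq_sq_iff_eq_or_eq_neg.1 h1

lemma twr_ind {D : G → 𝓞 K} (s t : twr D ≃ₐ[K] twr D)
    (h : ∀ x : twr D, (x : AlgebraicClosure K) ∈ rts D → s x = t x) : s = t := by
  have key : ∀ z : AlgebraicClosure K, ∀ hz : z ∈ twr D, s ⟨z, hz⟩ = t ⟨z, hz⟩ := by
    intro z hz
    refine adjoin_induction K (s := rts D)
      (p := fun z hz => s (⟨z, hz⟩ : twr D) = t (⟨z, hz⟩ : twr D)) ?_ ?_ ?_ ?_ ?_ hz
    · intro x hx
      exact h ⟨x, _⟩ hx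
    · intro k
      have e : (⟨algebraMap K (AlgebraicClosure K) k, IntermediateField.algebraMap_mem _ _⟩ : twr D) =
          algebraMap K (twr D) k := rfl
      rw [e, s.commutes, t.commutes]
    · intro x y hx hy h1 h2
      have e : (⟨x + y, (twr D).add_mem hx hy⟩ : twr D) = ⟨x, hx⟩ + ⟨y, hy⟩ := rfl
      have e' := congrArg s e
      have e'' := congrArg t e
      rw [map_add, h1, h2, ← map_add] at e'
      exact e'
    · intro x hx h1
      have e : (⟨x⁻¹, (twr D).inv_mem hx⟩ : twr D) = (⟨x, hx⟩ : twr D)⁻¹ := rfl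
      have e' := congrArg s e
      rw [map_inv₀, h1, ← map_inv₀] at e'
      exact e'
    · intro x y hx hy h1 h2
      have e : (⟨x * y, (twr D).mul_mem hx hy⟩ : twr D) = ⟨x, hx⟩ * ⟨y, hy⟩ := rfl
      have e' := congrArg s e
      rw [map_mul, h1, h2, ← map_mul] at e'
      exact e'
  exact AlgEquiv.ext fun z => key z.1 z.2

lemma twr_sq {D : G → 𝓞 K} (s : twr D ≃ₐ[K] twr D) : s * s = 1 := by
  apply twr_ind
  intro x hx
  rw [AlgEquiv.mul_apply]
  rcases rts_pm (twr D).val hx s with h1 | h1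
  · rw [h1, h1]; rfl
  · rw [h1, map_neg, h1, neg_neg]; rfl

instance twr_abelian (D : G → 𝓞 K) : IsAbelianGalois K (twr D) := by
  have hn : Normal K (twr D) := by
    rw [IntermediateField.normal_iff_forall_map_le]
    rintro s _ ⟨z, hz, rfl⟩
    show s z ∈ twr D
    refine adjoin_induction K (s := rts D) (p := fun z _ => s z ∈ twr D) ?_ ?_ ?_ ?_ ?_ hz
    · rintro x ⟨g, hg⟩
      refine subset_adjoin K _ ⟨g, ?_⟩
      rw [← map_pow, hg, AlgHom.commutes]
    · intro k
      rw [AlgHom.commutes]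
      exact IntermediateField.algebraMap_mem _ _
    · intro x y _ _ hx hy
      rw [map_add]
      exact (twr D).add_mem hx hy
    · intro x _ hx
      rw [map_inv₀]
      exact (twr D).inv_mem hx
    · intro x y _ _ hx hy
      rw [map_mul]
      exact (twr D).mul_mem hx hy
  have hg : IsGalois K (twr D) := ⟨⟩
  refine { toIsGalois := hg, is_comm := ⟨fun s t => ?_⟩ }
  have h1 : (s * t) * (s * t) = 1 := twr_sq _
  have h2 := twr_sq s
  have h3 := twr_sq t
  have h4 : t * s = s * t := by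
    calc t * s = (s * s) * (t * s) * (t * t) := by rw [h2, h3, one_mul, mul_one]
      _ = s * ((s * t) * (s * t)) * t := by simp only [mul_assoc]
      _ = s * t := by rw [h1, mul_one]
  exact h4.symm

end Run7.h323.BT
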