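import Pool.Agent.W165.CE.FF
import Pool.Agent.Run7.h323.BT.Dec2

/-!
Points over the residue fields of an extension.
-/

set_option autoImplicit false
set_option linter.unusedSectionVars false

namespace Run7.h323.BT

open NumberField IsDedekindDomain Polynomial
open Pool.Agent.H82R3.EK (luc card_points)
open Pool.Agent.H341R2.Sharp
open W165.CE (wei aeval_wei T_luc A_two wei_natDegree wei_monic)

/-- points over an extension of finite fields -/
theorem pts_ext {k E : Type} [Field k] [Fintype k] [Field E] [Fintype E] [Algebra k E]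
    (hk : ringChar k ≠ 2) (a b : k) (hD : 4 * a ^ 3 + 27 * b ^ 2 ≠ 0) :
    (Fintype.card E : ℤ) - Nat.card {x : E × E // x.2 ^ 2 = x.1 ^ 3 + algebraMap k E a * x.1 +
        algebraMap k E b} =
      luc ((Fintype.card k : ℤ) - Nat.card {x : k × k // x.2 ^ 2 = x.1 ^ 3 + a * x.1 + b})
        (Fintype.card k) (Module.finrank k E) := by
  classical
  have hE : ringChar E ≠ 2 := by
    rwa [← Algebra.ringChar_eq k E]
  have key : ∀ {E : Type} [Field E] [Fintype E] [Algebra k E] [DecidableEq E], ringChar E ≠ 2 →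
      (Fintype.card E : ℤ) - Nat.card {x : E × E // x.2 ^ 2 = x.1 ^ 3 + algebraMap k E a * x.1 +
        algebraMap k E b} = - T (wei a b) (Module.finrank k E) := by
    intro E _ _ _ _ hE
    rw [card_points hE (fun x => x ^ 3 + algebraMap k E a * x + algebraMap k E b),
      T_eq_sum (E := E) hk]
    simp_rw [aeval_wei]
    ring
  have h1 := key (E := k) hk
  rw [Module.finrank_self] at h1
  simp only [Algebra.algebraMap_self, RingHom.id_apply] at h1
  rw [key (E := E) hE, h1]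
  have hpos : 0 < Module.finrank k E := Module.finrank_pos
  obtain ⟨n, hn⟩ := Nat.exists_eq_succ_of_ne_zero hpos.ne'
  rw [hn, Nat.succ_eq_add_one, T_luc hk (wei_natDegree _ _) (wei_monic _ _) n, A_two hk _ _ hD]
  ring

variable {K F : Type} [Field K] [NumberField K] [Field F] [NumberField F] [Algebra K F]

/-- the number of the affine points of `y² = x³ + a x + b` over the residue field of `v` -/
noncomputable def pt (a b : 𝓞 K) (v : HeightOneSpectrum (𝓞 K)) : ℕ :=
  Nat.card {x : (𝓞 K ⧸ v.asIdeal) × (𝓞 K ⧸ v.asIdeal) //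
    x.2 ^ 2 = x.1 ^ 3 + (Ideal.Quotient.mk v.asIdeal a) * x.1 + (Ideal.Quotient.mk v.asIdeal b)}

/-- **points over the residue fields** -/
theorem pt_up (v : HeightOneSpectrum (𝓞 K)) (u : HeightOneSpectrum (𝓞 F))
    [hl : u.asIdeal.LiesOver v.asIdeal] {a b : 𝓞 K} (hv : 2 * (4 * a ^ 3 + 27 * b ^ 2) ∉ v.asIdeal)
    {f : ℕ} (hf : Ideal.absNorm u.asIdeal = Ideal.absNorm v.asIdeal ^ f) :
    (Ideal.absNorm u.asIdeal : ℤ) - pt (algebraMap (𝓞 K) (𝓞 F) a) (algebraMap (𝓞 K) (𝓞 F) b) u =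
      luc ((Ideal.absNorm v.asIdeal : ℤ) - pt a b v) (Ideal.absNorm v.asIdeal) f := by
  classical
  have hmax : v.asIdeal.IsMaximal := v.isMaximal
  have hmaxu : u.asIdeal.IsMaximal := u.isMaximal
  let _ : Field (𝓞 K ⧸ v.asIdeal) := Ideal.Quotient.field v.asIdeal
  let _ : Field (𝓞 F ⧸ u.asIdeal) := Ideal.Quotient.field u.asIdeal
  have : Fintype (𝓞 K ⧸ v.asIdeal) := Fintype.ofFinite _
  have : Fintype (𝓞 F ⧸ u.asIdeal) := Fintype.ofFinite _
  set π := Ideal.Quotient.mk v.asIdeal with hπ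
  have h2 : (2 : 𝓞 K) ∉ v.asIdeal := fun h => hv (v.asIdeal.mul_mem_right _ h)
  have hch : ringChar (𝓞 K ⧸ v.asIdeal) ≠ 2 := by
    intro h3
    apply h2
    rw [← Ideal.Quotient.eq_zero_iff_mem, map_ofNat]
    have h4 := (ringChar.spec (𝓞 K ⧸ v.asIdeal) 2).2 (by rw [h3])
    exact_mod_cast h4
  have hD : 4 * (π a) ^ 3 + 27 * (π b) ^ 2 ≠ 0 := by
    intro h3
    apply hv
    apply v.asIdeal.mul_mem_left
    rw [← Ideal.Quotient.eq_zero_iff_mem, ← h3]
    simp only [hπ, map_add, map_mul, map_pow, map_ofNat]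
  have h3 := pts_ext (k := 𝓞 K ⧸ v.asIdeal) (E := 𝓞 F ⧸ u.asIdeal) hch (π a) (π b) hD
  have e1 : Fintype.card (𝓞 K ⧸ v.asIdeal) = Ideal.absNorm v.asIdeal := by
    rw [nv_card, Nat.card_eq_fintype_card]
  have e2 : Fintype.card (𝓞 F ⧸ u.asIdeal) = Ideal.absNorm u.asIdeal := by
    rw [nv_card, Nat.card_eq_fintype_card]
  have e3 : Module.finrank (𝓞 K ⧸ v.asIdeal) (𝓞 F ⧸ u.asIdeal) = f := by
    have h4 := Module.card_eq_pow_finrank (K := 𝓞 K ⧸ v.asIdeal) (V := 𝓞 F ⧸ u.asIdeal)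
    rw [e1, e2, hf] at h4
    exact (Nat.pow_right_injective (nv_two v) h4).symm
  rw [e1, e2, e3] at h3
  exact h3

end Run7.h323.BT
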