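import Pool.Agent.K4H55.BI.Kl
import Pool.Agent.Run7.h323.BT.Pts
import Pool.Agent.Run7.h323.BT.Dec3

/-!
The Euler factors over a multiquadratic extension.
-/

set_option autoImplicit false
set_option linter.unusedSectionVars false

namespace Run7.h323.BT

open NumberField IsDedekindDomain WithZero
open Pool.Agent.H82R3.EK (luc)
open Pool.Agent.K4H55.BI (sym)

variable {K F : Type} [Field K] [NumberField K] [Field F] [NumberField F] [Algebra K F]

variable (K) in
/-- the place below -/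
def lw (u : HeightOneSpectrum (𝓞 F)) : HeightOneSpectrum (𝓞 K) where
  asIdeal := u.asIdeal.under (𝓞 K)
  isPrime := inferInstance
  ne_bot := by
    have h : Algebra.IsIntegral (𝓞 K) (𝓞 F) := inferInstance
    exact Ideal.IsIntegral.comap_ne_bot (𝓞 K) u.ne_bot

instance lw_over (u : HeightOneSpectrum (𝓞 F)) : u.asIdeal.LiesOver (lw K u).asIdeal := ⟨rfl⟩

lemma lw_of_over (v : HeightOneSpectrum (𝓞 K)) (u : HeightOneSpectrum (𝓞 F))
    [hl : u.asIdeal.LiesOver v.asIdeal] : lw K u = v := HeightOneSpectrum.ext hl.over.symm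

lemma over_of_lw {v : HeightOneSpectrum (𝓞 K)} {u : HeightOneSpectrum (𝓞 F)} (h : lw K u = v) :
    u.asIdeal.LiesOver v.asIdeal := ⟨by rw [← h]; rfl⟩

/-- places and primes -/
lemma card_lw (v : HeightOneSpectrum (𝓞 K)) :
    Nat.card {u : HeightOneSpectrum (𝓞 F) // lw K u = v} = (v.asIdeal.primesOver (𝓞 F)).ncard := by
  show _ = Nat.card (v.asIdeal.primesOver (𝓞 F))
  refine Nat.card_congr
    { toFun := fun u => ⟨u.1.asIdeal, u.1.isPrime, over_of_lw u.2⟩
      invFun := fun P => ⟨⟨P.1, P.2.1, ?_⟩, ?_⟩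
      left_inv := fun u => rfl
      right_inv := fun P => rfl }
  · have := P.2.2
    exact Ideal.ne_bot_of_liesOver_of_ne_bot v.ne_bot P.1
  · exact HeightOneSpectrum.ext P.2.2.over.symm

lemma nonempty_lw (v : HeightOneSpectrum (𝓞 K)) :
    Nonempty {u : HeightOneSpectrum (𝓞 F) // lw K u = v} := by
  have hmax : v.asIdeal.IsMaximal := v.isMaximal
  obtain ⟨Q, hQ, hl⟩ := Ideal.exists_maximal_ideal_liesOver_of_isIntegral (S := 𝓞 F) v.asIdeal
  have hne : Q ≠ ⊥ := Ideal.ne_bot_of_liesOver_of_ne_bot v.ne_bot Q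
  exact ⟨⟨⟨Q, hQ.isPrime, hne⟩, HeightOneSpectrum.ext hl.over.symm⟩⟩

open Classical in
/-- the Euler factor of `E/F` at the place `u` -/
noncomputable def fU (a b n : 𝓞 K) (c : Ideal (𝓞 K) → ℂ) (s : ℂ) (u : HeightOneSpectrum (𝓞 F)) : ℂ :=
  if 2 * (4 * a ^ 3 + 27 * b ^ 2) ∈ (lw K u).asIdeal then
    (1 - c (lw K u).asIdeal * (Ideal.absNorm u.asIdeal : ℂ) ^ (-s) +
      (if n ∈ (lw K u).asIdeal then 0 else (Ideal.absNorm u.asIdeal : ℂ) ^ (1 - 2 * s)))⁻¹
  else
    (1 - ((Ideal.absNorm u.asIdeal : ℂ) -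
        pt (algebraMap (𝓞 K) (𝓞 F) a) (algebraMap (𝓞 K) (𝓞 F) b) u) *
      (Ideal.absNorm u.asIdeal : ℂ) ^ (-s) + (Ideal.absNorm u.asIdeal : ℂ) ^ (1 - 2 * s))⁻¹

open Classical in
/-- the Euler factor of a twist -/
noncomputable def eK (n : 𝓞 K) (c : Ideal (𝓞 K) → ℂ) (s : ℂ) (v : HeightOneSpectrum (𝓞 K))
    (l : ℂ) : ℂ :=
  (1 - c v.asIdeal * l * (Ideal.absNorm v.asIdeal : ℂ) ^ (-s) +
    (if n ∈ v.asIdeal then 0 else l ^ 2 * (Ideal.absNorm v.asIdeal : ℂ) ^ (1 - 2 * s)))⁻¹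

lemma eK_zero (n : 𝓞 K) (c : Ideal (𝓞 K) → ℂ) (s : ℂ) (v : HeightOneSpectrum (𝓞 K)) :
    eK n c s v 0 = 1 := by
  unfold eK
  simp

open Classical in
/-- the sign of `x` at `v` -/
noncomputable def lam (a b : 𝓞 K) (v : HeightOneSpectrum (𝓞 K)) (x : 𝓞 K) : ℂ :=
  if 2 * (4 * a ^ 3 + 27 * b ^ 2) ∈ v.asIdeal then 1 else sym v x

lemma cpow_sq (q : ℕ) (s : ℂ) : ((q ^ 2 : ℕ) : ℂ) ^ (-s) = ((q : ℂ) ^ (-s)) ^ 2 := by
  rw [pow_two, Nat.cast_mul, Complex.natCast_mul_natCast_cpow, pow_two]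

lemma cpow_two' {q : ℕ} (hq : q ≠ 0) (s : ℂ) :
    (q : ℂ) ^ (1 - 2 * s) = q * ((q : ℂ) ^ (-s)) ^ 2 := by
  have hv0 : (q : ℂ) ≠ 0 := by exact_mod_cast hq
  rw [show (1 : ℂ) - 2 * s = 1 + -s + -s by ring, Complex.cpow_add _ _ hv0,
    Complex.cpow_add _ _ hv0, Complex.cpow_one]
  ring

section loc

variable {𝒢 : Type} [CommGroup 𝒢] {D : 𝒢 → 𝓞 K} {r : 𝒢 → 𝓞 F} [IsGalois K F]
  {a b n : 𝓞 K} {c : Ideal (𝓞 K) → ℂ}

/-- the factor at a place of degree one -/
lemma fU_one (v : HeightOneSpectrum (𝓞 K)) (u : HeightOneSpectrum (𝓞 F)) (hu : lw K u = v)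
    (hc : 2 * (4 * a ^ 3 + 27 * b ^ 2) ∉ v.asIdeal →
      n ∉ v.asIdeal ∧ c v.asIdeal = (Ideal.absNorm v.asIdeal : ℂ) - pt a b v)
    (hN : Ideal.absNorm u.asIdeal = Ideal.absNorm v.asIdeal) (s : ℂ) :
    fU a b n c s u = eK n c s v 1 := by
  have hl := over_of_lw hu
  unfold fU eK
  rw [hu]
  by_cases h1 : 2 * (4 * a ^ 3 + 27 * b ^ 2) ∈ v.asIdeal
  · rw [if_pos h1, hN, mul_one, one_pow, one_mul]
  · rw [if_neg h1]
    obtain ⟨h2, h3⟩ := hc h1
    rw [if_neg h2, h3, mul_one, one_pow, one_mul]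
    have h4 := pt_up v u h1 (f := 1) (by rw [hN, pow_one])
    have h5 : (((Ideal.absNorm u.asIdeal : ℤ) -
        pt (algebraMap (𝓞 K) (𝓞 F) a) (algebraMap (𝓞 K) (𝓞 F) b) u : ℤ) : ℂ) =
        (((Ideal.absNorm v.asIdeal : ℤ) - pt a b v : ℤ) : ℂ) := by rw [h4]; rfl
    push_cast at h5
    rw [h5, hN]

/-- the factor at a place of degree two -/
lemma fU_two (v : HeightOneSpectrum (𝓞 K)) (u : HeightOneSpectrum (𝓞 F)) (hu : lw K u = v)
    (h1 : 2 * (4 * a ^ 3 + 27 * b ^ 2) ∉ v.asIdeal)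
    (hc : n ∉ v.asIdeal ∧ c v.asIdeal = (Ideal.absNorm v.asIdeal : ℂ) - pt a b v)
    (hN : Ideal.absNorm u.asIdeal = Ideal.absNorm v.asIdeal ^ 2) (s : ℂ) :
    fU a b n c s u = eK n c s v 1 * eK n c s v (-1) := by
  have hl := over_of_lw hu
  have hq0 : Ideal.absNorm v.asIdeal ≠ 0 := by
    have := nv_two v
    omega
  unfold fU eK
  rw [hu, if_neg h1, if_neg hc.1, if_neg hc.1, ← mul_inv]
  congr 1
  have h4 := pt_up v u h1 hN
  have h5 : (((Ideal.absNorm u.asIdeal : ℤ) -
      pt (algebraMap (𝓞 K) (𝓞 F) a) (algebraMap (𝓞 K) (𝓞 F) b) u : ℤ) : ℂ) =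
      ((luc ((Ideal.absNorm v.asIdeal : ℤ) - pt a b v) (Ideal.absNorm v.asIdeal) 2 : ℤ) : ℂ) := by
    rw [h4]
  simp only [luc] at h5
  push_cast at h5
  rw [h5, hN, cpow_sq, cpow_two' (pow_ne_zero 2 hq0), cpow_two' hq0, cpow_sq, hc.2]
  push_cast
  ring

open Classical in
/-- sums over a group with a sign character -/
lemma prod_sign {A : Type} [Group A] [Fintype A] (e : A → ℂ) (he : ∀ x y, e (x * y) = e x * e y)
    (hv : ∀ x, e x = 1 ∨ e x = -1) (f : ℂ → ℂ) :
    ((∀ x, e x = 1) → ∏ x, f (e x) = f 1 ^ Fintype.card A) ∧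
      ((∃ x, e x = -1) → ∀ m : ℕ, m * 2 = Fintype.card A → ∏ x, f (e x) = (f 1 * f (-1)) ^ m) := by
  constructor
  · intro h1
    rw [Finset.prod_congr rfl fun x _ => by rw [h1 x], Finset.prod_const, Finset.card_univ]
  · rintro ⟨x0, hx0⟩ m hm
    set P := Finset.univ.filter fun x => e x = 1 with hP
    set N := Finset.univ.filter fun x => e x = -1 with hN
    have h1 : P.card = N.card := by
      refine Finset.card_bij (fun x _ => x0 * x) ?_ ?_ ?_
      · intro x hx
        rw [hP, Finset.mem_filter] at hx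
        rw [hN, Finset.mem_filter]
        exact ⟨Finset.mem_univ _, by rw [he, hx0, hx.2, mul_one]⟩
      · intro x _ y _ hxy
        exact mul_left_cancel hxy
      · intro y hy
        rw [hN, Finset.mem_filter] at hy
        refine ⟨x0⁻¹ * y, ?_, by rw [mul_inv_cancel_left]⟩
        rw [hP, Finset.mem_filter]
        refine ⟨Finset.mem_univ _, ?_⟩
        have h3 : e (x0 * (x0⁻¹ * y)) = e x0 * e (x0⁻¹ * y) := he _ _
        rw [mul_inv_cancel_left, hx0, hy.2] at h3
        linear_combination h3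
    have h2 : P ∪ N = Finset.univ := by
      ext x
      simp only [hP, hN, Finset.mem_union, Finset.mem_filter, Finset.mem_univ, true_and, iff_true]
      exact hv x
    have h3 : Disjoint P N := by
      rw [Finset.disjoint_left]
      intro x hx hx'
      rw [hP, Finset.mem_filter] at hx
      rw [hN, Finset.mem_filter] at hx'
      have h4 := hx.2.symm.trans hx'.2
      norm_num at h4
    have h4 : P.card + N.card = Fintype.card A := by
      rw [← Finset.card_union_of_disjoint h3, h2, Finset.card_univ]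
    have h5 : P.card = m := by omega
    have h6 : N.card = m := by omega
    rw [← h2, Finset.prod_union h3, mul_pow]
    congr 1
    · rw [Finset.prod_congr rfl fun x hx => by rw [(Finset.mem_filter.1 hx).2], Finset.prod_const, h5]
    · rw [Finset.prod_congr rfl fun x hx => by rw [(Finset.mem_filter.1 hx).2], Finset.prod_const, h6]

/-- the elements prime to `v` -/
def MQ.unr (h : MQ D r) (v : HeightOneSpectrum (𝓞 K)) : Subgroup 𝒢 where
  carrier := {g | D g ∉ v.asIdeal}
  mul_mem' := fun hg hg' => mul_memV v h hg hg'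
  one_mem' := by
    intro h1
    have h2 := (parity v h 1 1).1 (by rwa [mul_one])
    exact (h2.1 h1) h1
  inv_mem' := by
    intro g hg h1
    have h2 := (parity v h g g⁻¹).2
    have h3 : D 1 ∉ v.asIdeal := by
      intro h4
      have h5 := (parity v h 1 1).1 (by rwa [mul_one])
      exact (h5.1 h4) h4
    rw [mul_inv_cancel] at h2
    exact h3 (h2 (iff_of_false hg (by simp [h1])))

/-- multiplicativity of the symbol on the subgroup -/
lemma MQ.sym_val (v : HeightOneSpectrum (𝓞 K)) {x : 𝓞 K} (hx : x ∉ v.asIdeal) :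
    sym v x = 1 ∧ (∃ y, x - y ^ 2 ∈ v.asIdeal) ∨ sym v x = -1 ∧ ¬ ∃ y, x - y ^ 2 ∈ v.asIdeal := by
  unfold sym
  rw [if_neg hx]
  by_cases h1 : ∃ y, x - y ^ 2 ∈ v.asIdeal
  · rw [if_pos h1]; exact Or.inl ⟨rfl, h1⟩
  · rw [if_neg h1]; exact Or.inr ⟨rfl, h1⟩

/-- **the product of the Euler factors above `v`** -/
theorem MQ.loc (h : MQ D r) [Fintype 𝒢] (v : HeightOneSpectrum (𝓞 K))
    (hc : 2 * (4 * a ^ 3 + 27 * b ^ 2) ∉ v.asIdeal →
      n ∉ v.asIdeal ∧ c v.asIdeal = (Ideal.absNorm v.asIdeal : ℂ) - pt a b v)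
    (hsq : 2 * (4 * a ^ 3 + 27 * b ^ 2) ∈ v.asIdeal →
      ∀ g, IsSquare (algebraMap K (v.adicCompletion K) (D g : K))) (s : ℂ)
    [Fintype {u : HeightOneSpectrum (𝓞 F) // lw K u = v}] :
    ∏ u : {u : HeightOneSpectrum (𝓞 F) // lw K u = v}, fU a b n c s u.1 =
      ∏ g, eK n c s v (lam a b v (D g)) := by
  classical
  have hcard : Fintype.card {u : HeightOneSpectrum (𝓞 F) // lw K u = v} =
      (v.asIdeal.primesOver (𝓞 F)).ncard := by
    rw [← card_lw, Nat.card_eq_fintype_card]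
  by_cases h1 : 2 * (4 * a ^ 3 + 27 * b ^ 2) ∈ v.asIdeal
  · -- split completely
    obtain ⟨ψ⟩ := h.exists_emb (hsq h1)
    have e1 : ∀ u : {u : HeightOneSpectrum (𝓞 F) // lw K u = v}, fU a b n c s u.1 =
        eK n c s v 1 := by
      intro u
      have hl := over_of_lw u.2
      exact fU_one v u.1 u.2 hc (h.dec_split ψ u.1).1 s
    have e2 : ∀ g, eK n c s v (lam a b v (D g)) = eK n c s v 1 := by
      intro g
      unfold lam
      rw [if_pos h1]
    obtain ⟨u0⟩ := nonempty_lw (F := F) v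
    have hl := over_of_lw u0.2
    rw [Finset.prod_congr rfl fun u _ => e1 u, Finset.prod_congr rfl fun g _ => e2 g,
      Finset.prod_const, Finset.prod_const, Finset.card_univ, Finset.card_univ, hcard,
      (h.dec_split ψ u0.1).2, Nat.card_eq_fintype_card]
  · -- odd places
    have h2 : (2 : 𝓞 K) ∉ v.asIdeal := fun h => h1 (v.asIdeal.mul_mem_right _ h)
    have hlam : ∀ x, lam a b v x = sym v x := by
      intro x
      unfold lam
      rw [if_neg h1]
    simp only [hlam]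
    -- reduction to the subgroup
    have hfin : Fintype (h.unr v) := Fintype.ofFinite _
    have hsub : ∏ g, eK n c s v (sym v (D g)) = ∏ g : h.unr v, eK n c s v (sym v (D g.1)) := by
      have h5 : ∏ g ∈ Finset.univ.filter (fun g : 𝒢 => g ∈ h.unr v), eK n c s v (sym v (D g)) =
          ∏ g : h.unr v, eK n c s v (sym v (D g.1)) := Finset.prod_subtype _ (fun g => by simp) _
      rw [← h5]
      symm
      refine Finset.prod_subset (Finset.filter_subset _ _) fun g _ hg => ?_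
      have h6 : D g ∈ v.asIdeal := by
        by_contra h7
        exact hg (Finset.mem_filter.2 ⟨Finset.mem_univ _, h7⟩)
      have h7 : sym v (D g) = 0 := by
        unfold sym
        rw [if_pos h6]
      rw [h7, eK_zero]
    rw [hsub]
    obtain ⟨u0⟩ := nonempty_lw (F := F) v
    have hl := over_of_lw u0.2
    obtain ⟨φ, hφ⟩ := IsArithFrobAt.exists_of_isInvariant (𝓞 K) (F ≃ₐ[K] F) u0.1.asIdeal
    have hφ' : ∀ x : 𝓞 F, φ • x - x ^ Ideal.absNorm v.asIdeal ∈ u0.1.asIdeal := by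
      intro x
      have h1 := hφ x
      have e1 : u0.1.asIdeal.under (𝓞 K) = v.asIdeal := (Ideal.over_def u0.1.asIdeal v.asIdeal).symm
      rw [e1, ← nv_card] at h1
      exact h1
    have hsym : ∀ g : h.unr v, sym v (D g.1) = ((ep r φ g.1 : ℤ) : ℂ) := by
      intro g
      have h3 := h.frob v u0.1 h2 g.2 hφ'
      rcases MQ.sym_val v (x := D g.1) g.2 with ⟨h4, h5⟩ | ⟨h4, h5⟩
      · rw [h4, h3.2 h5]; simp
      · rw [h4, (Int.units_eq_one_or (ep r φ g.1)).resolve_left fun h6 => h5 (h3.1 h6)]; simp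
    have hps := prod_sign (A := h.unr v) (fun g => sym v (D g.1)) (fun x y => by
        simp only [hsym]
        rw [Subgroup.coe_mul, h.ep_mul_right]
        push_cast
        ring)
      (fun x => by
        rcases MQ.sym_val v (x := D x.1) x.2 with h4 | h4
        · exact Or.inl h4.1
        · exact Or.inr h4.1) (eK n c s v)
    have hcu : Fintype.card (h.unr v) = Nat.card {g // D g ∉ v.asIdeal} := by
      rw [← Nat.card_eq_fintype_card]
      rfl
    obtain ⟨f, hf, hN, hiff, hm⟩ := h.dec_odd v u0.1 h2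
    -- the degree is the same for all `u`
    have hNall : ∀ u : {u : HeightOneSpectrum (𝓞 F) // lw K u = v},
        Ideal.absNorm u.1.asIdeal = Ideal.absNorm v.asIdeal ^ f := by
      intro u
      have hl' := over_of_lw u.2
      obtain ⟨f', hf', hN', hiff', -⟩ := h.dec_odd v u.1 h2
      have : f' = f := by
        by_cases h5 : f = 1
        · rw [h5]
          exact hiff'.2 (hiff.1 h5)
        · have h6 : f' ≠ 1 := fun h7 => h5 (hiff.2 (hiff'.1 h7))
          omega
      rw [hN', this]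
    by_cases h5 : f = 1
    · rw [h5] at hNall hm
      have e3 : ∀ u : {u : HeightOneSpectrum (𝓞 F) // lw K u = v}, fU a b n c s u.1 =
          eK n c s v 1 := fun u => fU_one v u.1 u.2 hc (by rw [hNall u, pow_one]) s
      have e4 : ∏ u : {u : HeightOneSpectrum (𝓞 F) // lw K u = v}, fU a b n c s u.1 =
          eK n c s v 1 ^ Fintype.card (h.unr v) := by
        rw [Finset.prod_congr rfl fun u _ => e3 u, Finset.prod_const, Finset.card_univ, hcard,
          hcu, ← hm, mul_one]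
      exact e4.trans (hps.1 (fun g => by
        rcases MQ.sym_val v (x := D g.1) g.2 with h6 | h6
        · exact h6.1
        · exact absurd (hiff.1 h5 g.1 g.2) h6.2)).symm
    · have h6 : f = 2 := by omega
      rw [h6] at hNall hm
      have hex : ∃ g : h.unr v, sym v (D g.1) = -1 := by
        by_contra hcon
        push Not at hcon
        apply h5
        apply hiff.2
        intro g hg
        rcases MQ.sym_val v (x := D g) hg with h7 | h7
        · exact h7.2
        · exact absurd h7.1 (hcon ⟨g, hg⟩)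
      have e3 : ∀ u : {u : HeightOneSpectrum (𝓞 F) // lw K u = v}, fU a b n c s u.1 =
          eK n c s v 1 * eK n c s v (-1) := fun u => fU_two v u.1 u.2 h1 (hc h1) (hNall u) s
      have e4 : ∏ u : {u : HeightOneSpectrum (𝓞 F) // lw K u = v}, fU a b n c s u.1 =
          (eK n c s v 1 * eK n c s v (-1)) ^ (v.asIdeal.primesOver (𝓞 F)).ncard := by
        rw [Finset.prod_congr rfl fun u _ => e3 u, Finset.prod_const, Finset.card_univ, hcard]
      exact e4.trans (hps.2 hex (v.asIdeal.primesOver (𝓞 F)).ncard (by rw [hcu, hm])).symm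

end loc

end Run7.h323.BT
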