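import Mathlib

/-!
Multiquadratic extensions of number fields: signs and the degree.
-/

set_option autoImplicit false
set_option linter.unusedSectionVars false

namespace Run7.h323.BT

open NumberField IsDedekindDomain WithZero

section grp

/-- the number of the sign characters of a finite group -/
lemma card_hom_le (A : Type) [Group A] [Finite A] : Nat.card (A →* ℤˣ) ≤ Nat.card A := by
  classical
  have : Fintype A := Fintype.ofFinite A
  let j : (A →* ℤˣ) → (A →* ℂ) := fun f =>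
    ((Int.castRingHom ℂ : ℤ →* ℂ).comp (Units.coeHom ℤ)).comp f
  have hj : Function.Injective j := by
    intro f g hfg
    apply MonoidHom.ext
    intro a
    have h1 : ((f a : ℤ) : ℂ) = ((g a : ℤ) : ℂ) := DFunLike.congr_fun hfg a
    exact Units.ext (by exact_mod_cast h1)
  have hli := linearIndependent_monoidHom A ℂ
  have hfin : Finite (A →* ℂ) := hli.finite
  have : Fintype (A →* ℂ) := Fintype.ofFinite _
  have h1 := hli.fintype_card_le_finrank
  rw [Module.finrank_fintype_fun_eq_card] at h1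
  calc Nat.card (A →* ℤˣ) ≤ Nat.card (A →* ℂ) := Nat.card_le_card_of_injective j hj
    _ ≤ Nat.card A := by rw [Nat.card_eq_fintype_card, Nat.card_eq_fintype_card]; exact h1

end grp

variable {K F : Type} [Field K] [NumberField K] [Field F] [NumberField F] [Algebra K F]
  {𝒢 : Type} [CommGroup 𝒢] {D : 𝒢 → 𝓞 K} {r : 𝒢 → 𝓞 F}

/-- the field `F` is generated over `K` by the square roots `r g` of the `D g` -/
structure MQ (D : 𝒢 → 𝓞 K) (r : 𝒢 → 𝓞 F) : Prop where
  sq : ∀ g, r g ^ 2 = algebraMap (𝓞 K) (𝓞 F) (D g)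
  mul : ∀ g h, ∃ k : 𝓞 K, k ≠ 0 ∧ D (g * h) * k ^ 2 = D g * D h
  ne : ∀ g, D g ≠ 0
  sep : ∀ t : F ≃ₐ[K] F, (∀ g, t (r g : F) = (r g : F)) → t = 1
  ns : ∀ g, g ≠ 1 → ¬ IsSquare (D g : K)
  val : ∀ g, ∀ v : HeightOneSpectrum (𝓞 K), D g ∈ v.asIdeal →
    v.valuation K (D g : K) = exp (-1 : ℤ)

namespace MQ

lemma sqF (h : MQ D r) (g : 𝒢) : (r g : F) ^ 2 = algebraMap K F (D g : K) := by
  have h1 := congrArg (algebraMap (𝓞 F) F) (h.sq g)
  rw [map_pow] at h1
  exact h1

lemma rne (h : MQ D r) (g : 𝒢) : (r g : F) ≠ 0 := by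
  intro h0
  have h1 := h.sqF g
  rw [h0, zero_pow two_ne_zero] at h1
  have h2 := (map_eq_zero (algebraMap K F)).1 h1.symm
  exact h.ne g (RingOfIntegers.ext h2)

lemma pm (h : MQ D r) (t : F ≃ₐ[K] F) (g : 𝒢) :
    t (r g : F) = (r g : F) ∨ t (r g : F) = -(r g : F) := by
  have h1 : t (r g : F) ^ 2 = (r g : F) ^ 2 := by
    rw [← map_pow, h.sqF, t.commutes]
  exact sq_eq_sq_iff_eq_or_eq_neg.1 h1

lemma neg_ne (h : MQ D r) (g : 𝒢) : (r g : F) ≠ -(r g : F) := by
  intro h1
  have h2 : (2 : F) * (r g : F) = 0 := by linear_combination h1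
  rcases mul_eq_zero.1 h2 with h3 | h3
  · norm_num at h3
  · exact h.rne g h3

open Classical in
/-- the sign -/
noncomputable def ep (r : 𝒢 → 𝓞 F) (t : F ≃ₐ[K] F) (g : 𝒢) : ℤˣ :=
  if t (r g : F) = (r g : F) then 1 else -1

lemma ep_spec (h : MQ D r) (t : F ≃ₐ[K] F) (g : 𝒢) :
    t (r g : F) = ((ep r t g : ℤ) : F) * (r g : F) := by
  classical
  unfold ep
  by_cases h1 : t (r g : F) = (r g : F)
  · rw [if_pos h1, h1]; simp
  · rw [if_neg h1, (h.pm t g).resolve_left h1]; simp

lemma ep_eq (h : MQ D r) {t : F ≃ₐ[K] F} {g : 𝒢} {e : ℤˣ}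
    (h1 : t (r g : F) = ((e : ℤ) : F) * (r g : F)) : ep r t g = e := by
  rw [h.ep_spec] at h1
  have h2 := mul_right_cancel₀ (h.rne g) h1
  exact Units.ext (by exact_mod_cast h2)

lemma ep_mul_left (h : MQ D r) (s t : F ≃ₐ[K] F) (g : 𝒢) :
    ep r (s * t) g = ep r s g * ep r t g := by
  apply h.ep_eq
  rw [AlgEquiv.mul_apply, h.ep_spec t g, map_mul, map_intCast, h.ep_spec s g]
  push_cast
  ring

lemma ep_mul_right (h : MQ D r) (t : F ≃ₐ[K] F) (g g' : 𝒢) :
    ep r t (g * g') = ep r t g * ep r t g' := by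
  obtain ⟨k, hk, h1⟩ := h.mul g g'
  have hkF : algebraMap K F (k : K) ≠ 0 := by
    rw [Ne, map_eq_zero]
    exact fun h2 => hk (RingOfIntegers.ext h2)
  have h2 : ((r (g * g') : F) * algebraMap K F (k : K)) ^ 2 = ((r g : F) * (r g' : F)) ^ 2 := by
    rw [mul_pow, mul_pow, h.sqF, h.sqF, h.sqF, ← map_pow, ← map_mul, ← map_mul]
    congr 1
    have h3 := congrArg (algebraMap (𝓞 K) K) h1
    simpa only [map_mul, map_pow] using h3
  have h4 : ∃ e : ℤ, (r (g * g') : F) * algebraMap K F (k : K) = (e : F) * ((r g : F) * (r g' : F)) ∧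
      (e : F) ≠ 0 := by
    rcases sq_eq_sq_iff_eq_or_eq_neg.1 h2 with h3 | h3
    · exact ⟨1, by rw [h3]; simp, by simp⟩
    · exact ⟨-1, by rw [h3]; simp, by simp⟩
  obtain ⟨e, he, he0⟩ := h4
  apply h.ep_eq
  apply mul_right_cancel₀ hkF
  have h5 := congrArg t he
  rw [map_mul, t.commutes, map_mul, map_mul, map_intCast, h.ep_spec t g, h.ep_spec t g'] at h5
  rw [h5]
  push_cast
  linear_combination (-((ep r t g : ℤ) : F) * ((ep r t g' : ℤ) : F)) * he

lemma ep_one_right (h : MQ D r) (t : F ≃ₐ[K] F) : ep r t (1 : 𝒢) = 1 := by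
  have h1 := h.ep_mul_right t 1 1
  rw [mul_one] at h1
  exact (mul_eq_left.1 h1.symm)

lemma ep_one_left (h : MQ D r) (g : 𝒢) : ep r (1 : F ≃ₐ[K] F) g = 1 := by
  apply h.ep_eq
  simp

lemma ep_fix (h : MQ D r) {t : F ≃ₐ[K] F} {g : 𝒢} : ep r t g = 1 ↔ t (r g : F) = (r g : F) := by
  rw [h.ep_spec]
  constructor
  · intro h1
    rw [h1]; simp
  · intro h1
    exact h.ep_eq (by rw [h.ep_spec, h1]; simp)

lemma eq_one (h : MQ D r) {t : F ≃ₐ[K] F} (ht : ∀ g, ep r t g = 1) : t = 1 :=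
  h.sep t fun g => h.ep_fix.1 (ht g)

/-- the elements have order two -/
lemma sq_one (h : MQ D r) (t : F ≃ₐ[K] F) : t * t = 1 := by
  apply h.eq_one
  intro g
  rw [h.ep_mul_left, Int.units_mul_self]

lemma comm (h : MQ D r) (s t : F ≃ₐ[K] F) : s * t = t * s := by
  have h1 : s * t * (t * s)⁻¹ = 1 := by
    apply h.eq_one
    intro g
    have h2 : ∀ x : F ≃ₐ[K] F, ep r x⁻¹ g = ep r x g := by
      intro x
      have h3 := h.ep_mul_left x x⁻¹ g
      rw [mul_inv_cancel, h.ep_one_left] at h3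
      have h4 : ep r x g * ep r x g = 1 := Int.units_mul_self _
      exact mul_left_cancel (h3.symm.trans h4.symm)
    rw [h.ep_mul_left, h2, h.ep_mul_left, h.ep_mul_left, mul_comm (ep r t g), Int.units_mul_self]
  exact mul_inv_eq_one.1 h1

variable [IsGalois K F]

lemma right_nd (h : MQ D r) {g : 𝒢} (hg : ∀ t : F ≃ₐ[K] F, ep r t g = 1) : g = 1 := by
  by_contra hne
  apply h.ns g hne
  have h1 : ∀ t : F ≃ₐ[K] F, t (r g : F) = (r g : F) := fun t => h.ep_fix.1 (hg t)
  obtain ⟨y, hy⟩ := (IsGalois.mem_range_algebraMap_iff_fixed (F := K) (r g : F)).2 h1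
  refine ⟨y, (algebraMap K F).injective ?_⟩
  rw [← h.sqF, ← hy, map_mul, pow_two]

/-- **the degree** -/
theorem card [Finite 𝒢] (h : MQ D r) : Nat.card (F ≃ₐ[K] F) = Nat.card 𝒢 := by
  classical
  have hΓ : Finite (F ≃ₐ[K] F) := inferInstance
  apply le_antisymm
  · let j : (F ≃ₐ[K] F) → (𝒢 →* ℤˣ) := fun t =>
      { toFun := ep r t, map_one' := h.ep_one_right t, map_mul' := h.ep_mul_right t }
    have hj : Function.Injective j := by
      intro s t hst
      have h1 : ∀ g, ep r s g = ep r t g := fun g => DFunLike.congr_fun hst g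
      have h2 : s * t = 1 := by
        apply h.eq_one
        intro g
        rw [h.ep_mul_left, h1, Int.units_mul_self]
      have h3 := h.sq_one t
      exact mul_right_cancel (h2.trans h3.symm)
    have : Finite (𝒢 →* ℤˣ) := by
      refine Finite.of_injective (β := 𝒢 → ℤˣ) (fun f => f) DFunLike.coe_injective
    exact (Nat.card_le_card_of_injective j hj).trans (card_hom_le 𝒢)
  · let j : 𝒢 → ((F ≃ₐ[K] F) →* ℤˣ) := fun g =>
      { toFun := fun t => ep r t g, map_one' := h.ep_one_left g,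
        map_mul' := fun s t => h.ep_mul_left s t g }
    have hj : Function.Injective j := by
      intro g g' hg
      have h1 : ∀ t : F ≃ₐ[K] F, ep r t g = ep r t g' := fun t => DFunLike.congr_fun hg t
      have h2 : g * g' = 1 := by
        apply h.right_nd
        intro t
        rw [h.ep_mul_right, h1, Int.units_mul_self]
      have h3 : g' * g' = 1 := by
        apply h.right_nd
        intro t
        rw [h.ep_mul_right, Int.units_mul_self]
      exact mul_right_cancel (h2.trans h3.symm)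
    have : Finite ((F ≃ₐ[K] F) →* ℤˣ) := by
      refine Finite.of_injective (β := (F ≃ₐ[K] F) → ℤˣ) (fun f => f) DFunLike.coe_injective
    exact (Nat.card_le_card_of_injective j hj).trans (card_hom_le (F ≃ₐ[K] F))

end MQ

end Run7.h323.BT
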