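import Pool.Agent.Run7.h323.BT.Loc
import Pool.Agent.H921R2.TatePole.Dedekind
import Pool.Agent.K4H15.BZ.Bas

/-!
The `L`-function over a multiquadratic extension.
-/

set_option autoImplicit false
set_option linter.unusedSectionVars false

namespace Run7.h323.BT

open NumberField IsDedekindDomain WithZero Filter Topology
open Pool.Agent.K4H55.BI (sym)
open Pool.Agent.H921R2.TatePole (nm nm_summable two_le_nm)

variable {K F : Type} [Field K] [NumberField K] [Field F] [NumberField F] [Algebra K F]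
  {a b n : 𝓞 K} {c : Ideal (𝓞 K) → ℂ}

/-- finitely many places contain a nonzero element -/
lemma places_fin {x : 𝓞 F} (hx : x ≠ 0) : {u : HeightOneSpectrum (𝓞 F) | x ∈ u.asIdeal}.Finite := by
  have hI : (Ideal.span {x} : Ideal (𝓞 F)) ≠ 0 := by
    rw [Ne, Ideal.zero_eq_bot, Ideal.span_singleton_eq_bot]
    exact hx
  refine (Ideal.finite_factors hI).subset fun u hu => ?_
  rw [Set.mem_setOf_eq, Ideal.dvd_span_singleton]
  exact hu

/-- the part of the factor different from one -/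
lemma fac_bound {q : ℕ} (hq : 2 ≤ q) {A : ℂ} (hA : ‖A‖ ≤ q) {s : ℂ} (hs : 2 < s.re)
    (hsmall : (q : ℝ) ^ (-(s.re - 1)) ≤ 1 / 6) :
    ‖(1 - A * (q : ℂ) ^ (-s) + (q : ℂ) ^ (1 - 2 * s))⁻¹ - 1‖ ≤ 6 * (q : ℝ) ^ (-(s.re - 1)) := by
  have hn0 : (0 : ℝ) < q := by exact_mod_cast (by omega : 0 < q)
  have hn1 : (1 : ℝ) ≤ q := by exact_mod_cast (by omega : 1 ≤ q)
  set w : ℝ := (q : ℝ) ^ (-(s.re - 1)) with hw
  have hw0 : 0 ≤ w := by positivity
  have e1 : ‖(q : ℂ) ^ (-s)‖ = (q : ℝ) ^ (-s.re) := by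
    have := Complex.norm_natCast_cpow_of_pos (n := q) (by omega) (-s)
    rw [Complex.neg_re] at this
    exact this
  have e2 : ‖(q : ℂ) ^ (1 - 2 * s)‖ = (q : ℝ) ^ (1 - 2 * s.re) := by
    have := Complex.norm_natCast_cpow_of_pos (n := q) (by omega) (1 - 2 * s)
    have h2 : (1 - 2 * s).re = 1 - 2 * s.re := by simp
    rw [h2] at this
    exact this
  set u : ℂ := -(A * (q : ℂ) ^ (-s)) + (q : ℂ) ^ (1 - 2 * s) with hu
  have hu1 : ‖u‖ ≤ 2 * w := by
    have h1 : ‖A * (q : ℂ) ^ (-s)‖ ≤ w := by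
      rw [norm_mul, e1]
      calc ‖A‖ * (q : ℝ) ^ (-s.re) ≤ (q : ℝ) * (q : ℝ) ^ (-s.re) :=
            mul_le_mul_of_nonneg_right hA (by positivity)
        _ = w := by
            rw [hw]
            nth_rewrite 1 [← Real.rpow_one (q : ℝ)]
            rw [← Real.rpow_add hn0]
            congr 1
            ring
    have h2 : ‖(q : ℂ) ^ (1 - 2 * s)‖ ≤ w := by
      rw [e2, hw]
      apply Real.rpow_le_rpow_of_exponent_le hn1
      linarith
    calc ‖u‖ ≤ ‖-(A * (q : ℂ) ^ (-s))‖ + _ := norm_add_le _ _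
      _ ≤ w + w := add_le_add (by rwa [norm_neg]) h2
      _ = 2 * w := by ring
  have e3 : (1 - A * (q : ℂ) ^ (-s) + (q : ℂ) ^ (1 - 2 * s)) = 1 + u := by rw [hu]; ring
  rw [e3]
  have hu2 : ‖u‖ ≤ 1 / 3 := by linarith
  have h3 : 1 / 2 ≤ ‖1 + u‖ := by
    have := norm_sub_norm_le (1 : ℂ) (-u)
    rw [sub_neg_eq_add, norm_neg, norm_one] at this
    linarith
  have hne : 1 + u ≠ 0 := by
    intro h
    rw [h, norm_zero] at h3
    linarith
  have e4 : (1 + u)⁻¹ - 1 = -u / (1 + u) := by field_simp; ring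
  rw [e4, norm_div, norm_neg, div_le_iff₀ (by linarith)]
  nlinarith [norm_nonneg u]

/-- the product over the places of `F` converges -/
theorem fU_mult (hΔ : 4 * a ^ 3 + 27 * b ^ 2 ≠ 0) {s : ℂ} (hs : 2 < s.re) :
    Multipliable (fU (F := F) a b n c s) := by
  have hsum := nm_summable (K := F) (x := s.re - 1) (by linarith)
  have h1 : Summable (fun v : HeightOneSpectrum (𝓞 F) => ‖fU a b n c s v - 1‖) := by
    refine Summable.of_norm_bounded_eventually (hsum.mul_left 6) ?_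
    have h2 := hsum.tendsto_cofinite_zero.eventually (Iio_mem_nhds (by norm_num : (0 : ℝ) < 1 / 6))
    have h3 : ∀ᶠ v : HeightOneSpectrum (𝓞 F) in cofinite,
        2 * (4 * a ^ 3 + 27 * b ^ 2) ∉ (lw K v).asIdeal := by
      rw [Filter.eventually_cofinite]
      simp only [not_not]
      have h4 : algebraMap (𝓞 K) (𝓞 F) (2 * (4 * a ^ 3 + 27 * b ^ 2)) ≠ 0 := by
        intro h5
        have h6 : 2 * (4 * a ^ 3 + 27 * b ^ 2) = 0 :=
          (FaithfulSMul.algebraMap_injective (𝓞 K) (𝓞 F)) (by rw [h5, map_zero])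
        rcases mul_eq_zero.1 h6 with h7 | h7
        · norm_num at h7
        · exact hΔ h7
      exact places_fin h4
    filter_upwards [h2, h3] with v hv hv3
    rw [norm_norm]
    unfold fU
    rw [if_neg hv3]
    refine fac_bound (nv_two v) ?_ hs (le_of_lt hv)
    have h5 : pt (algebraMap (𝓞 K) (𝓞 F) a) (algebraMap (𝓞 K) (𝓞 F) b) v ≤
        2 * Ideal.absNorm v.asIdeal := Pool.Agent.K4H15.BZ.pv_le _ _ v
    have h6 : (pt (algebraMap (𝓞 K) (𝓞 F) a) (algebraMap (𝓞 K) (𝓞 F) b) v : ℝ) ≤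
        2 * Ideal.absNorm v.asIdeal := by exact_mod_cast h5
    have e : ((Ideal.absNorm v.asIdeal : ℂ) -
        pt (algebraMap (𝓞 K) (𝓞 F) a) (algebraMap (𝓞 K) (𝓞 F) b) v) =
        (((Ideal.absNorm v.asIdeal : ℝ) -
        pt (algebraMap (𝓞 K) (𝓞 F) a) (algebraMap (𝓞 K) (𝓞 F) b) v : ℝ) : ℂ) := by
      push_cast
      rfl
    rw [e, Complex.norm_real, Real.norm_eq_abs, abs_le]
    have h7 : (0 : ℝ) ≤ pt (algebraMap (𝓞 K) (𝓞 F) a) (algebraMap (𝓞 K) (𝓞 F) b) v :=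
      Nat.cast_nonneg _
    have h8 : (0 : ℝ) ≤ Ideal.absNorm v.asIdeal := Nat.cast_nonneg _
    constructor <;> linarith
  have h2 := multipliable_one_add_of_summable h1
  refine h2.congr (fun v => ?_)
  ring

/-- **the `L`-function over `F`** -/
theorem MQ.lfun {𝒢 : Type} [CommGroup 𝒢] {D : 𝒢 → 𝓞 K} {r : 𝒢 → 𝓞 F} [IsGalois K F]
    (h : MQ D r) [Fintype 𝒢] (hΔ : 4 * a ^ 3 + 27 * b ^ 2 ≠ 0)
    (hc : ∀ v : HeightOneSpectrum (𝓞 K), 2 * (4 * a ^ 3 + 27 * b ^ 2) ∉ v.asIdeal →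
      n ∉ v.asIdeal ∧ c v.asIdeal = (Ideal.absNorm v.asIdeal : ℂ) - pt a b v)
    (hsq : ∀ v : HeightOneSpectrum (𝓞 K), 2 * (4 * a ^ 3 + 27 * b ^ 2) ∈ v.asIdeal →
      ∀ g, IsSquare (algebraMap K (v.adicCompletion K) (D g : K)))
    {L : 𝒢 → ℂ → ℂ} (hL : ∀ g, ∀ s : ℂ, 2 < s.re → HasProd (fun v : HeightOneSpectrum (𝓞 K) =>
      eK n c s v (lam a b v (D g))) (L g s)) {s : ℂ} (hs : 2 < s.re) :
    HasProd (fU (F := F) a b n c s) (∏ g, L g s) := by
  classical
  have hfin : ∀ v : HeightOneSpectrum (𝓞 K),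
      Finite {u : HeightOneSpectrum (𝓞 F) // lw K u = v} := by
    intro v
    have h1 : Finite (v.asIdeal.primesOver (𝓞 F)) := by
      have hmax : v.asIdeal.IsMaximal := v.isMaximal
      exact (inferInstance : Finite (v.asIdeal.primesOver (𝓞 F)))
    refine Finite.of_injective (β := v.asIdeal.primesOver (𝓞 F))
      (fun u => ⟨u.1.asIdeal, u.1.isPrime, over_of_lw u.2⟩) ?_
    intro u u' huu
    apply Subtype.ext
    apply HeightOneSpectrum.ext
    exact congrArg Subtype.val huu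
  have hft : ∀ v : HeightOneSpectrum (𝓞 K),
      Fintype {u : HeightOneSpectrum (𝓞 F) // lw K u = v} := fun v => Fintype.ofFinite _
  have h1 : HasProd (fun v : HeightOneSpectrum (𝓞 K) => ∏ g, eK n c s v (lam a b v (D g)))
      (∏ g, L g s) := hasProd_prod fun g _ => hL g s hs
  have h2 : (fun v : HeightOneSpectrum (𝓞 K) => ∏ g, eK n c s v (lam a b v (D g))) =
      fun v => ∏ u : {u : HeightOneSpectrum (𝓞 F) // lw K u = v}, fU a b n c s u.1 := by
    funext v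
    exact (h.loc v (hc v) (hsq v) s).symm
  rw [h2] at h1
  have h3 : Multipliable (fU (F := F) a b n c s) := fU_mult hΔ hs
  rw [← (Equiv.sigmaFiberEquiv (lw (F := F) K)).hasProd_iff]
  refine HasProd.sigma_of_hasProd h1 (fun p => ?_) ?_
  · exact hasProd_fintype _
  · exact (Equiv.sigmaFiberEquiv (lw (F := F) K)).multipliable_iff.2 h3

end Run7.h323.BT
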